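import Pool.Agent.Q260.DS.Stm

set_option autoImplicit false

/-!
# Project BD (helper260): Backlund's criterion for one derivative

`Few (It f cs)`: few zeros, `o(log conductor)`, to the right of a line; it is equivalent for `It f cs` and for `f`
(and then to the Lindelof bound).  Statements for a `Sys` (`Pool/Agent/Q260/DS/Stm.lean`), all constants uniform.
The proofs of `S_GR`, `S_RT`, `S_LB`, `S_VI`, `S_UP`, `S_DI` (modules `Pool.Agent.Q251.DS.RT`, `Q251.DS.VI`,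
`Q75.DS...`, `Q150.DS.DI`, `Q150.DS.Com`) are good models.
-/

namespace Pool.Agent.Q260.DS

open Complex Filter Topology Metric Set

/-- At most `x` zeros with multiplicity in the box `θ ≤ Re z ≤ 2`, `|Im z - T| ≤ R`. -/
def Few (G : ℂ → ℂ) (θ T R x : ℝ) : Prop := ∀ Z : Finset ℂ,
  (∀ z ∈ Z, G z = 0 ∧ θ ≤ z.re ∧ z.re ≤ 2 ∧ |z.im - T| ≤ R) → ∑ z ∈ Z, (analyticOrderNatAt G z : ℝ) ≤ x

/-- Upper bound by the normal size times `exp (e l)`. -/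
def UB (G : ℂ → ℂ) (l g : ℝ → ℝ) (k : ℕ) (θ T e : ℝ) : Prop := ∀ x : ℝ, θ ≤ x → x ≤ 3 →
  ‖G (x + I * T)‖ ≤ Real.exp (e * l T) * Nm l g k T x

/-- JOB FB (abstract: few zeros give an upper bound, Backlund's argument). Proof. Let `B` be the Blaschke product
of the zeros `z` of `g` in `ball c ρ` (with multiplicity, `n ≤ η L` factors `ρ (w - z) / (ρ^2 - conj (z - c) (w - c))`),
`h = g / B`: analytic and nonzero in the ball, `‖h w‖ ≤ exp (C0 L) ‖g c‖` in the ball (maximum principle, `‖B‖ = 1` on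
the circle), `‖h c‖ ≥ ‖g c‖`, `‖B c‖ ≥ (5/12)^n`. On `closedBall c 1` the zeros are at distance `≥ 1/4`, so
`‖logDeriv h‖ ≤ C0 + 5 n`. Write `h = h c * exp φ` (`H31R2.DH.exists_log`), `φ c = 0`, `Re φ ≤ C0 L`:
Borel-Caratheodory `‖φ‖ ≤ 48 C0 L/δ` on `closedBall c (ρ - δ/4)`, `‖φ‖ ≤ C0 + 5 n` on `closedBall c 1`; Hadamard's three
circles as in the proof of `DJ.S_TC` give `‖φ‖ ≤ (C0 + 5 n)^(δ/16) (48 C0 L/δ)^(1 - δ/16) ≤ (ε/2) L` on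
`closedBall c (ρ - δ/2)` if `n ≤ η L`, `η` small and `L ≥ M0`. `‖g‖ ≤ ‖h‖`, `‖h c‖ ≤ (12/5)^n ‖g c‖`.
(Any other removal of the zeros is fine, e.g. the lemmas behind `Q240.GS.few_bound`, `H370`, `Q240/LH/Few.lean`.) -/
def S_FB : Prop := ∀ C0 ε δ : ℝ, 1 ≤ C0 → 0 < ε → 0 < δ → δ ≤ 1 / 2 → ∃ η M0 : ℝ, 0 < η ∧ 1 ≤ M0 ∧
  ∀ (g : ℂ → ℂ) (c : ℂ) (ρ L : ℝ), 2 ≤ ρ → ρ ≤ 3 → M0 ≤ L → AnalyticOnNhd ℂ g (closedBall c ρ) →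
  (∀ w ∈ closedBall c ρ, ‖g w‖ ≤ Real.exp (C0 * L) * ‖g c‖) →
  (∀ w ∈ closedBall c (5 / 4), g w ≠ 0 ∧ ‖logDeriv g w‖ ≤ C0) →
  (∀ Z : Finset ℂ, (∀ z ∈ Z, g z = 0 ∧ z ∈ closedBall c ρ) → ∑ z ∈ Z, (analyticOrderNatAt g z : ℝ) ≤ η * L) →
  ∀ w : ℂ, ‖w - c‖ ≤ ρ - δ → ‖g w‖ ≤ Real.exp (ε * L) * ‖g c‖

/-- JOB FU (from `S_FB`, `S_RT`, `S_GR`). Proof. `L = l T`, `c = 3 + I T`, `ρ = 3 - θ`,
`g w = It f cs w * exp (- L w)`; same zeros and orders as `It f cs`; in `closedBall c ρ`: `Re w ≥ θ`, `|Im w - T| ≤ 3`,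
no zeros with `Re w ≥ 7/4` (`S_RT`, `a = 7/4`, `B = 6`, at the height `Im w`, `l (Im w) ≥ L/2`), the others are counted
by `Few`. Upper bound `S_GR` (`R = 7`), size at `c`: `S_RT`; `logDeriv g = logDeriv (It f cs) - L` bounded on
`closedBall c (5/4)` by `S_RT` and `shift`. Result: `‖It f cs (x + I T)‖ exp (-L x) ≤ exp (ε L/2) ‖g c‖ ≤
exp (ε L/2) C (g T) L^k ≤ exp (ε L) (g T) L^k`. -/
def S_FU : Prop := ∀ (K A ε δ : ℝ) (k : ℕ), 1 ≤ K → 1 ≤ A → 0 < ε → 0 < δ → δ ≤ 1 / 2 → ∃ η C : ℝ, 0 < η ∧ 1 ≤ C ∧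
  ∀ (y0 : ℝ) (f : ℂ → ℂ) (l g : ℝ → ℝ), Sys K A y0 f l g → ∀ cs : List ℝ, Li A k cs →
  ∀ T θ : ℝ, C ≤ l T → 0 ≤ θ → θ ≤ 1 → Few (It f cs) θ T 4 (η * l T) → UB (It f cs) l g k (θ + δ) T ε

/-- JOB VU (from `S_GR`): vertical integration of upper bounds. Proof. As `S_VI` (`Pool/Agent/Q251/DS/VI.lean`),
simpler: `F = It f cs`, `G = It f (c :: cs)`, `z = x + I T`; `‖G (z + I v)‖ ≤ exp (ε l (T+v)) Nm l g (k+1) (T+v) x` for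
`0 ≤ v ≤ V = K1 l T`, `l (T+v) ≤ l T + K log (2+v) ≤ 2 l T`, `g (T+v) ≤ A exp (-v/A) g T`, so this is
`≤ C2 exp (ε l T) exp (-v/(2A)) Nm l g (k+1) T x`; the top by `S_GR` and `dec`. `‖F z‖ ≤ C3 exp (ε l T) (l T) Nm l g k T x`
and `C3 l T ≤ exp (2 ε l T)`. -/
def S_VU : Prop := ∀ (K A ε : ℝ) (k : ℕ), 1 ≤ K → 1 ≤ A → 0 < ε → ∃ C : ℝ, 1 ≤ C ∧
  ∀ (y0 : ℝ) (f : ℂ → ℂ) (l g : ℝ → ℝ), Sys K A y0 f l g → ∀ (c : ℝ) (cs : List ℝ), |c| ≤ A → Li A k cs →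
  ∀ T θ : ℝ, y0 ≤ T → C ≤ l T → 0 ≤ θ →
  (∀ y : ℝ, T ≤ y → y ≤ T + C * l T → UB (It f (c :: cs)) l g (k + 1) θ y ε) → UB (It f cs) l g k θ T (3 * ε)

/-- JOB UI (from `S_VU`). Proof. Induction on `k`, `e = ε / 3^k`; the window of height `y + C2 l y`,
`y ≤ T + C1 l T`, is contained in `[T, T + C l T]` (`shift`), and `l y ≥ l T / 2` there. -/
def S_UI : Prop := ∀ (K A ε : ℝ) (k : ℕ), 1 ≤ K → 1 ≤ A → 0 < ε → ∃ e C : ℝ, 0 < e ∧ 1 ≤ C ∧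
  ∀ (y0 : ℝ) (f : ℂ → ℂ) (l g : ℝ → ℝ), Sys K A y0 f l g → ∀ cs : List ℝ, Li A k cs →
  ∀ T θ : ℝ, y0 ≤ T → C ≤ l T → 0 ≤ θ →
  (∀ y : ℝ, T ≤ y → y ≤ T + C * l T → UB (It f cs) l g k θ y e) → UB f l g 0 θ T ε

/-- JOB CU: Cauchy's estimate. Proof. Induction on `k`, losing `δ/k` in `θ` and in the window each time
(so state it with `δ` and windows for general `δ`): on the circle of radius `1 / l T` around `z = x + I T` the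
function `G` is at most `C exp (ε l T) Nm l g k T x` (`shift`; `g y / g T` for `|y - T| ≤ 1` is bounded by `up` and `lo` at
`3 + I y`; for `Re ≥ 3` use `up` and `S_GR`-type bounds, or `S_RT`), so `‖G'‖ ≤ l T` times this. Constants
`≤ exp ((ε/(4k)) l T)`. -/
def S_CU : Prop := ∀ (K A ε δ : ℝ) (k : ℕ), 1 ≤ K → 1 ≤ A → 0 < ε → 0 < δ → δ ≤ 1 / 2 → ∃ C : ℝ, 1 ≤ C ∧
  ∀ (y0 : ℝ) (f : ℂ → ℂ) (l g : ℝ → ℝ), Sys K A y0 f l g → ∀ cs : List ℝ, Li A k cs →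
  ∀ T θ : ℝ, C ≤ l T → 0 ≤ θ → θ + δ ≤ 3 → (∀ y : ℝ, |y - T| ≤ δ → UB f l g 0 θ y ε) →
  UB (It f cs) l g k (θ + δ) T (2 * ε)

/-- JOB UF (from `S_RT`): an upper bound gives few zeros (Jensen). Proof. For `T'` with `|T' - T| ≤ R`, `c = 3 + I T'`,
`ρ = 3 - θ`, `g w = It f cs w * exp (- l T' * w)`: `‖g w‖ ≤ C exp (2 e l T') ‖g c‖` on `closedBall c ρ` (`UB` for
`Re w ≤ 3`, `S_RT` with `B = 6` for `Re w ≥ 3`; `l (Im w)`, `g (Im w)` and `l T'`, `g T'` are comparable, factors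
`exp (|l (Im w) - l T'| * 6) ≤ C`), so by Jensen's inequality at most `(2 e l T' + log C) / log (ρ/(ρ - δ/2))` zeros
with multiplicity in `closedBall c (ρ - δ/2)`, which contains the `z` with `Re z ≥ θ + δ`, `|Im z - T'| ≤ δ/2`. Cover the
window `|Im z - T| ≤ R` by `2 R/δ + 1` such windows. Ready-made Jensen: see `Pool/Agent/Q239/DJ/LC.lean`,
`Q187/DJ/ES.lean`, `H370` (`mult`), Mathlib `AnalyticOnNhd` / `MeromorphicOn` Jensen. -/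
def S_UF : Prop := ∀ (K A δ η R : ℝ) (k : ℕ), 1 ≤ K → 1 ≤ A → 0 < δ → δ ≤ 1 / 2 → 0 < η → 0 ≤ R →
  ∃ e C : ℝ, 0 < e ∧ 1 ≤ C ∧
  ∀ (y0 : ℝ) (f : ℂ → ℂ) (l g : ℝ → ℝ), Sys K A y0 f l g → ∀ cs : List ℝ, Li A k cs →
  ∀ T θ : ℝ, C ≤ l T → 0 ≤ θ → θ ≤ 3 / 2 → (∀ y : ℝ, |y - T| ≤ R + 4 → UB (It f cs) l g k θ y e) →
  Few (It f cs) (θ + δ) T R (η * l T)

/-- JOB FQ (from `S_FU`, `S_UI`, `S_CU`, `S_UF`): few zeros of `It f cs` iff few zeros of `f`, with unit windows.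
Proof. Unit windows to windows of radius `4` and back: covering (`Q240.GS.AM_cover`). (a): `S_FU` for `cs`
(`θ`, `δ/2`) at all heights `y` in `[T - 5, T + C' l T]` (`Few (It f cs) θ y 4` from unit windows), `S_UI` at all
heights in `[T - 5, T + 5]`, `S_UF` with `k = 0` (`It f [] = f`), `R = 1`. (b): `S_FU` with `k = 0` at `|y - T| ≤ 6`, `S_CU`,
`S_UF`. -/
def S_FQ : Prop := ∀ (K A δ η : ℝ) (k : ℕ), 1 ≤ K → 1 ≤ A → 0 < δ → δ ≤ 1 / 2 → 0 < η →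
  ∃ e C : ℝ, 0 < e ∧ 1 ≤ C ∧
  ∀ (y0 : ℝ) (f : ℂ → ℂ) (l g : ℝ → ℝ), Sys K A y0 f l g → ∀ cs : List ℝ, Li A k cs →
  ∀ T θ : ℝ, C ≤ l T → 0 ≤ θ → θ ≤ 1 →
  (y0 + 12 ≤ T → (∀ y : ℝ, T - 12 ≤ y → y ≤ T + C * l T → Few (It f cs) θ y 1 (e * l T)) →
    Few f (θ + δ) T 1 (η * l T)) ∧
  ((∀ y : ℝ, |y - T| ≤ 12 → Few f θ y 1 (e * l T)) → Few (It f cs) (θ + δ) T 1 (η * l T))

end Pool.Agent.Q260.DS
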