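import Pool.Agent.Q260.DS.Stm2
import Pool.Agent.Q260.DS.Stm5
import Pool.Agent.Q240.GS.Fam

set_option autoImplicit false

/-!
# Project BD (helper260): the L-functions
-/

namespace Pool.Agent.Q260.DS

open Complex Filter Topology Metric Set
open Pool.Agent.W169.HF H353.E H353.F Q240.GS
open scoped ComplexConjugate

/-- At most `x` zeros with multiplicity, `θ ≤ Re s ≤ 5/2`, `|Im s - T| ≤ 1`. -/
def FewL (G : ℂ → ℂ) (θ T x : ℝ) : Prop := ∀ Z : Finset ℂ,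
  (∀ z ∈ Z, G z = 0 ∧ θ ≤ z.re ∧ z.re ≤ 5 / 2 ∧ |z.im - T| ≤ 1) → ∑ z ∈ Z, (analyticOrderNatAt G z : ℝ) ≤ x

/-- JOB F2 (from `S_SY`, `S_DU`, `S_FQ`). Proof. As `S_F1` (`Pool/Agent/Q251/DS/F1.lean`): heights `T ≥ 0` directly from
the `Sys` with `Y` large (`Y = 12`), `T ≤ 0` from the dual. `XX N Λ = N^(s/2) Λ` has the same zeros and orders as `Λ`;
`log cnd` and `2 el` differ by `O(m)` (`el_bd`). -/
def S_F2 : Prop := ∀ (m k : ℕ) (M A δ η : ℝ), 1 ≤ m → 0 ≤ M → 1 ≤ A → 0 < δ → δ ≤ 1 / 2 → 0 < η →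
  ∃ e C : ℝ, 0 < e ∧ 1 ≤ C ∧ ∀ (N : ℝ) (μ : Fin m → ℂ) (Λ : ℂ → ℂ), Ob N μ Λ → (∀ j, ‖μ j‖ ≤ M) →
    ∀ cs : List ℝ, Li A k cs → ∀ T θ : ℝ, C ≤ Real.log (cnd N μ T) → 1 / 2 ≤ θ → θ ≤ 1 →
    ((∀ y : ℝ, |y - T| ≤ C * Real.log (cnd N μ T) → FewL (It (XX N Λ) cs) θ y (e * Real.log (cnd N μ T))) →
      FewL Λ (θ + δ) T (η * Real.log (cnd N μ T))) ∧
    ((∀ y : ℝ, |y - T| ≤ C → FewL Λ θ y (e * Real.log (cnd N μ T))) →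
      FewL (It (XX N Λ) cs) (θ + δ) T (η * Real.log (cnd N μ T)))

/-- JOB GL. Proof. `Q240.GS.few_L`, `Q240.GS.L_few` (`Pool/Agent/Q240/GS/Fin.lean`) with `P = 1`, `S = ∅`, `B = 0`,
`α = 1 - θ` (`FF_one`): a zero `z` of `LL μ Λ` with `-2 ≤ Re z ≤ α - η` is a trivial zero (`z` one of `EX`,
at most `5 m`, order at most `m` each; pole of the gamma factor) or the reflection `1 - conj z` (`refl_zero`)
of a zero of `Λ` with `Re ≥ θ + η`; orders: `analyticOrderNatAt` of `Λ` at `z` and `1 - conj z` are equal (functional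
equation), `LL = Λ` times the entire function `∏ (Gammaℝ (s - μ j))⁻¹`, whose zeros are simple in each factor.
`AM` is stated with `H370.mult` (= `analyticOrderNatAt`, see `Fin.lean`). `AM_cover` for windows of radius `h`. -/
def S_GL : Prop := ∀ (m : ℕ) (θ : ℝ), 1 ≤ m → 1 / 2 ≤ θ → θ < 1 →
  (∀ ε : ℝ, 0 < ε → ∃ δ h C : ℝ, 0 < δ ∧ 0 < h ∧ 1 ≤ C ∧ ∀ (N : ℝ) (μ : Fin m → ℂ) (Λ : ℂ → ℂ), Ob N μ Λ →
    ∀ T : ℝ, C ≤ Real.log (cnd N μ T) → (∀ y : ℝ, |y - T| ≤ h → FewL Λ (θ + δ) y (δ * Real.log (cnd N μ T))) →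
    ‖LL μ Λ (θ + T * I)‖ ≤ Real.exp (ε * Real.log (cnd N μ T))) ∧
  (∀ δ : ℝ, 0 < δ → ∃ ε h C : ℝ, 0 < ε ∧ 0 < h ∧ 1 ≤ C ∧ ∀ (N : ℝ) (μ : Fin m → ℂ) (Λ : ℂ → ℂ), Ob N μ Λ →
    ∀ T : ℝ, C ≤ Real.log (cnd N μ T) →
    (∀ t : ℝ, |t - T| ≤ h → ‖LL μ Λ (θ + t * I)‖ ≤ Real.exp (ε * Real.log (cnd N μ T))) →
    FewL Λ (θ + δ) T (δ * Real.log (cnd N μ T)))

end Pool.Agent.Q260.DS
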