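import Pool.Agent.Q260.DS.Stm2
import Pool.Agent.Q240.OW.P2

set_option autoImplicit false

/-!
# Project DS (helper260): the general class `WP` (helper240's `Q240/OW/P1.lean`)

`WP r B N μ X`: `X s = (s (s - 1))^r N^(s/2) (gamma factors) L(s)` is entire with functional equation, two-sided
bounds for `Re s ≥ 2`, no zeros for `Re s > 1` (all Artin, Hecke, Dedekind, elliptic curve L-functions).
These are the versions of `S_SY`, `S_DU`, `S_LZ`, `S_F1` for this class; adapt the proofs for `Ob`: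
`Q210/DS/SY.lean`, `Q210/DS/DU.lean`, `Q210/DS/LZ.lean`, and `Q251/DS/F1.lean` (F1).
-/

namespace Pool.Agent.Q260.DS

open Complex Filter Topology Metric Set
open Pool.Agent.W169.HF H353.E H353.F Q240.GS Q240.OW
open scoped ComplexConjugate

/-- The size at height `y`. -/
noncomputable def gp {m : ℕ} (r : ℕ) (N : ℝ) (μ : Fin m → ℂ) (y : ℝ) : ℝ := p0 r y * gg N μ y

/-- JOB SP (from `S_HD`). Proof. As `Q210/DS/SY.lean` with `ud_ofP` in place of `ud_of_sharp`; `dec`: `S_HD` and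
`p0 r (y + v) ≤ (1 + 2 v)^(2 r) p0 r y` (`‖t‖ ≤ (1 + 2 b) ‖s‖` for `‖s‖ ≥ 1/2`, `‖s - t‖ ≤ b`, as in `pp_ratio`), and
`(1 + 2 v)^(2 r) exp (-v/A) ≤ A' exp (-v/(2 A))`. -/
def S_SP : Prop := ∀ (m r : ℕ) (M Y B : ℝ), 1 ≤ m → 0 ≤ M → 0 ≤ Y → 1 ≤ B → ∃ K A : ℝ, 1 ≤ K ∧ 1 ≤ A ∧
  ∀ (N : ℝ) (μ : Fin m → ℂ) (X : ℂ → ℂ), WP r B N μ X → (∀ j, ‖μ j‖ ≤ M) →
  Sys K A (-Y) (fun z => X (1 / 2 + z)) (el N μ) (gp r N μ)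

/-- JOB DP. Proof. As the corresponding fields in `Q210/DS/DU.lean`: `gaf N (conj μ) (conj s) = conj (gaf N μ s)`. -/
def S_DP : Prop := ∀ (m r : ℕ) (B N : ℝ) (μ : Fin m → ℂ) (X : ℂ → ℂ), WP r B N μ X →
  WP r B N (fun j => conj (μ j)) (fun s => conj (X (conj s)))

/-- JOB LP. Proof. As `Q210/DS/LZ.lean` with `ndP`, `fnP` in place of `nd_of`, `fn` (at height `|T| ≥ 1` also
`‖pp r (1/2 + i T)‖ ≥ c ‖pp r (3/2 + i T)‖`, and for all `T`: `‖s‖, ‖s-1‖ ≥ 1/2` at `s = 1/2 + iT`, so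
`pp_ratio` applies). -/
def S_LP : Prop := ∀ (m r : ℕ) (ε B : ℝ), 1 ≤ m → 0 < ε → 1 ≤ B → ∃ δ h C : ℝ, 0 < δ ∧ 0 < h ∧ 1 ≤ C ∧
  ∀ (N : ℝ) (μ : Fin m → ℂ) (X : ℂ → ℂ), WP r B N μ X → ∀ T : ℝ, C ≤ Real.log (cnd N μ T) →
  (∀ s : ℂ, X s = 0 → 1 / 2 + δ < s.re → h < |s.im - T|) →
  ‖LQ r N μ X (1 / 2 + T * I)‖ ≤ Real.exp (ε * Real.log (cnd N μ T))

/-- JOB FP (from `S_SP`, `S_DP`, `S_DI`, `S_RA`, `S_DN`). Proof. As `S_F1`. -/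
def S_FP : Prop := ∀ (m r k : ℕ) (M A B : ℝ), 1 ≤ m → 0 ≤ M → 1 ≤ A → 1 ≤ B →
  (∀ ε : ℝ, 0 < ε → ∃ C : ℝ, 1 ≤ C ∧ ∀ (N : ℝ) (μ : Fin m → ℂ) (X : ℂ → ℂ), WP r B N μ X → (∀ j, ‖μ j‖ ≤ M) →
    ∀ cs : List ℝ, Li A k cs →
    (∀ (s : ℂ) (σ : ℝ), X s = 0 → C ≤ Real.log (cnd N μ s.im) → 1 / 2 ≤ σ → σ + ε ≤ s.re →
      ∃ w : ℂ, It X cs w = 0 ∧ σ < w.re ∧ w.re ≤ 5 / 2 ∧
        |w.im - s.im| ≤ C * Real.log (cnd N μ s.im)) ∧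
    (∀ (s : ℂ) (σ : ℝ), It X cs s = 0 → C ≤ Real.log (cnd N μ s.im) → 1 / 2 ≤ σ → σ + ε ≤ s.re →
      s.re ≤ 5 / 2 → ∃ w : ℂ, X w = 0 ∧ σ < w.re ∧ |w.im - s.im| ≤ 4 * k)) ∧
  (∃ C : ℝ, 1 ≤ C ∧ ∀ (N : ℝ) (μ : Fin m → ℂ) (X : ℂ → ℂ), WP r B N μ X → (∀ j, ‖μ j‖ ≤ M) →
    ∀ cs : List ℝ, Li A k cs → ∀ T : ℝ, C ≤ Real.log (cnd N μ T) →
    (∀ s : ℂ, It X cs s = 0 → 1 / 2 < s.re → s.re ≤ 5 / 2 →
      C * Real.log (cnd N μ T) < |s.im - T|) →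
    ∀ s : ℂ, X s = 0 → s.im = T → |s.re - 1 / 2| ≤
      C * (Real.log (Real.log (Real.log (cnd N μ T))) / Real.log (Real.log (cnd N μ T))))

end Pool.Agent.Q260.DS
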