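import Pool.Agent.Q260.DS.Fam
import Pool.Agent.Q260.DS.Stm3

set_option autoImplicit false

/-!
# Project DS: families of L-functions of the general class `WP`
-/

namespace Pool.Agent.Q260.DS

open Complex Filter Topology Metric Set
open Pool.Agent.W169.HF H353.E H353.F Q240.GS Q240.OW
open scoped ComplexConjugate

variable {ι : Type*} {m k r : ℕ} {M A B : ℝ} {N : ι → ℝ} {μ : ι → Fin m → ℂ} {Λ : ι → ℂ → ℂ} {cs : ι → List ℝ}

section

variable (hF1 : S_FP) (hm : 1 ≤ m) (hM : 0 ≤ M) (hA : 1 ≤ A) (hB : 1 ≤ B) (hOb : ∀ i, WP r B (N i) (μ i) (Λ i))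
  (hμ : ∀ i j, ‖μ i j‖ ≤ M) (hcs : ∀ i, Li A k (cs i))

include hF1 hm hM hA hB hOb hμ hcs

theorem famP_iff {θ : ℝ} (hθ : 1 / 2 ≤ θ) :
    UpTo (fun i => It (Λ i) (cs i)) (fun i => cnd (N i) (μ i)) θ ↔
      UpTo Λ (fun i => cnd (N i) (μ i)) θ := by
  constructor
  · intro h ε hε
    obtain ⟨C, hC, H⟩ := (hF1 m r k M A B hm hM hA hB).1 (ε / 2) (by linarith)
    obtain ⟨X, hX⟩ := h (ε / 2) (by linarith)
    obtain ⟨X', hX'1, hX'⟩ := near_large m C (Real.log (max X 1)) (by linarith)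
    refine ⟨Real.exp (max C X'), fun i s hs hq _ => ?_⟩
    have hN := (hOb i).one_le
    have hq' : max C X' ≤ Real.log (cnd (N i) (μ i) s.im) := by
      have := Real.log_le_log (Real.exp_pos _) hq
      rwa [Real.log_exp] at this
    by_contra hcon
    push Not at hcon
    obtain ⟨w, hw1, hw2, hw3, hw4⟩ := (H (N i) (μ i) (Λ i) (hOb i) (hμ i) (cs i) (hcs i)).1 s (θ + ε / 2) hs
      ((le_max_left _ _).trans hq') (by linarith) (by linarith)
    have h5 := hX' (N i) (μ i) s.im w.im hN ((le_max_right _ _).trans hq') hw4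
    have h6 := hX i w hw1 (ge_of_log' hN h5) hw3
    linarith
  · intro h ε hε
    obtain ⟨C, hC, H⟩ := (hF1 m r k M A B hm hM hA hB).1 (ε / 2) (by linarith)
    obtain ⟨X, hX⟩ := h (ε / 2) (by linarith)
    obtain ⟨X', hX'1, hX'⟩ := near_large m (4 * k) (Real.log (max X 1)) (by positivity)
    refine ⟨Real.exp (max C X'), fun i s hs hq hs2 => ?_⟩
    have hN := (hOb i).one_le
    have hq' : max C X' ≤ Real.log (cnd (N i) (μ i) s.im) := by
      have := Real.log_le_log (Real.exp_pos _) hq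
      rwa [Real.log_exp] at this
    by_contra hcon
    push Not at hcon
    obtain ⟨w, hw1, hw2, hw4⟩ := (H (N i) (μ i) (Λ i) (hOb i) (hμ i) (cs i) (hcs i)).2 s (θ + ε / 2) hs
      ((le_max_left _ _).trans hq') (by linarith) (by linarith) hs2
    have h7 := (le_max_right _ _).trans hq'
    have h5 := hX' (N i) (μ i) s.im w.im hN h7 (hw4.trans (by
      have : (1 : ℝ) ≤ Real.log (cnd (N i) (μ i) s.im) := hX'1.trans h7
      have hk : (0 : ℝ) ≤ 4 * k := by positivity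
      nlinarith))
    have hw5 : w.re ≤ 1 := by
      by_contra hc
      push Not at hc
      exact (hOb i).nz w hc hw1
    have h6 := hX i w hw1 (ge_of_log' hN h5) (by linarith)
    linarith

theorem famP_rate {X0 : ℝ} (h : ∀ (i : ι) (s : ℂ), It (Λ i) (cs i) s = 0 →
      X0 ≤ cnd (N i) (μ i) s.im → s.re ≤ 5 / 2 → s.re ≤ 1 / 2) :
    ∃ C : ℝ, ∀ (i : ι) (s : ℂ), Λ i s = 0 → C ≤ Real.log (cnd (N i) (μ i) s.im) →
      |s.re - 1 / 2| ≤ C * (Real.log (Real.log (Real.log (cnd (N i) (μ i) s.im))) /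
        Real.log (Real.log (cnd (N i) (μ i) s.im))) := by
  obtain ⟨C, hC, H⟩ := (hF1 m r k M A B hm hM hA hB).2
  obtain ⟨X', hX'1, hX'⟩ := near_large m C (Real.log (max X0 1)) (by linarith)
  obtain ⟨x0, hx0, hlog⟩ : ∃ x0 : ℝ, 1 ≤ x0 ∧ ∀ x : ℝ, x0 ≤ x → 0 ≤ Real.log (Real.log x) / Real.log x := by
    refine ⟨Real.exp 1, ?_, fun x hx => ?_⟩
    · linarith [Real.add_one_le_exp (1 : ℝ)]
    · have h1 : 1 ≤ Real.log x := by
        have := Real.log_le_log (Real.exp_pos _) hx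
        rwa [Real.log_exp] at this
      exact div_nonneg (Real.log_nonneg h1) (by linarith)
  refine ⟨max C (max X' x0), fun i s hs hq => ?_⟩
  have hN := (hOb i).one_le
  have q1 := (le_max_left _ _).trans hq
  have q2 := ((le_max_left _ _).trans (le_max_right _ _)).trans hq
  have q3 := ((le_max_right _ _).trans (le_max_right _ _)).trans hq
  have h1 := H (N i) (μ i) (Λ i) (hOb i) (hμ i) (cs i) (hcs i) s.im q1 (fun w hw hw1 hw2 => by
    by_contra hcon
    push Not at hcon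
    have h5 := hX' (N i) (μ i) s.im w.im hN q2 hcon
    have := h i w hw (ge_of_log' hN h5) hw2
    linarith) s hs rfl
  exact h1.trans (mul_le_mul_of_nonneg_right (le_max_left _ _) (hlog _ q3))

end

theorem famP_lind (hLZ : S_LP) (hm : 1 ≤ m) (hB : 1 ≤ B) (hOb : ∀ i, WP r B (N i) (μ i) (Λ i))
    (h : UpTo Λ (fun i => cnd (N i) (μ i)) (1 / 2)) :
    ∀ ε : ℝ, 0 < ε → ∃ C : ℝ, ∀ (i : ι) (t : ℝ), C ≤ Real.log (cnd (N i) (μ i) t) →
      ‖LQ r (N i) (μ i) (Λ i) (1 / 2 + t * I)‖ ≤ Real.exp (ε * Real.log (cnd (N i) (μ i) t)) := by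
  intro ε hε
  obtain ⟨δ, y, C, hδ, hy, hC, H⟩ := hLZ m r ε B hm hε hB
  obtain ⟨X, hX⟩ := h δ hδ
  obtain ⟨X', hX'1, hX'⟩ := near_large m y (Real.log (max X 1)) hy.le
  refine ⟨max C X', fun i t hq => ?_⟩
  have hN := (hOb i).one_le
  have q2 := (le_max_right _ _).trans hq
  refine H (N i) (μ i) (Λ i) (hOb i) t ((le_max_left _ _).trans hq) fun s hs hs1 => ?_
  by_contra hcon
  push Not at hcon
  have h5 := hX' (N i) (μ i) t s.im hN q2 (hcon.trans (by
    have : (1 : ℝ) ≤ Real.log (cnd (N i) (μ i) t) := hX'1.trans q2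
    nlinarith))
  have hw5 : s.re ≤ 1 := by
    by_contra hc
    push Not at hc
    exact (hOb i).nz s hc hs
  have := hX i s hs (ge_of_log' hN h5) (by linarith)
  linarith

end Pool.Agent.Q260.DS
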