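import Pool.Agent.Q260.DS.All3
import Pool.Agent.Q260.DS.FamP
import Pool.Agent.Q285.DS.SP
import Pool.Agent.Q53.DS.DP
import Pool.Agent.Q53.DS.LP
import Pool.Agent.Q177.DS.FP

set_option autoImplicit false

/-!
# Project DS: all lemmas for the general class
-/

namespace Pool.Agent.Q260.DS

open Pool.Agent.W169.HF H353.E H353.F Q240.GS Q240.OW

theorem sp : S_SP := Q285.DS.t_SP hd
theorem dp : S_DP := Q53.DS.t_DP
theorem lp : S_LP := Q53.DS.t_LP
theorem fp : S_FP := Q177.DS.t_FP sp dp di ra dn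

/-- the class `WL` is contained in `WP 0` -/
theorem wp_of_wl {m : ℕ} {B N : ℝ} {μ : Fin m → ℂ} {Λ : ℂ → ℂ} (h : WL B N μ Λ) : WP 0 B N μ (XX N Λ) := by
  have hN : 0 < N := by linarith [h.one_le]
  refine ⟨h.one_le, h.re_le, h.slow, h.fe, fun s hs => ?_, fun s hs => ?_, fun s hs h0 => ?_⟩
  · have := h.hi s hs
    simpa [pp] using this
  · have := h.lo s hs
    simpa [pp] using this
  · exact h.nz s hs ((XX_zero (by linarith [h.one_le])).1 h0)

end Pool.Agent.Q260.DS
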