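import Pool.Agent.Q144.DJ.TC
import Pool.Agent.Q24.DJ.OD
import Pool.Agent.Q251.DS.RT
import Pool.Agent.Q75.DS.GR
import Pool.Agent.Q210.DS.LB
import Pool.Agent.Q251.DS.VI
import Pool.Agent.Q210.DS.BK
import Pool.Agent.Q150.DS.DN
import Pool.Agent.Q150.DS.DI

set_option autoImplicit false

/-!
# Project DS: all lemmas on `Sys`
-/

namespace Pool.Agent.Q260.DS

theorem rt : S_RT := Q251.DS.t_RT
theorem gr : S_GR := Q75.DS.t_GR
theorem lb : S_LB := Q210.DS.t_LB Q144.DJ.t_TC rt gr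
theorem vi : S_VI := Q251.DS.VI.t_VI gr lb
theorem bk : S_BK := Q210.DS.t_BK Q24.DJ.t_OD lb vi
theorem fw : S_FW := Q75.DS.t_FW lb
theorem up : S_UP := Q75.DS.t_UP bk
theorem dn : S_DN := Q150.DS.t_DN fw
theorem di : S_DI := Q150.DS.t_DI up dn
theorem ra : S_RA := Q150.DS.t_RA up

end Pool.Agent.Q260.DS
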