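import Pool.Agent.Q260.DS.Stm2

set_option autoImplicit false

/-!
# Project DS: families of L-functions
-/

namespace Pool.Agent.Q260.DS

open Complex Filter Topology Metric Set
open Pool.Agent.W169.HF H353.E H353.F Q240.GS
open scoped ComplexConjugate

variable {ι : Type*} {m k : ℕ} {M A : ℝ} {N : ι → ℝ} {μ : ι → Fin m → ℂ} {Λ : ι → ℂ → ℂ} {cs : ι → List ℝ}

/-- No zeros with `Re s ≥ θ + ε` (`Re s ≤ 5/2`) at the heights where the analytic conductor `q` is large. -/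
def UpTo (Z : ι → ℂ → ℂ) (q : ι → ℝ → ℝ) (θ : ℝ) : Prop :=
  ∀ ε : ℝ, 0 < ε → ∃ X : ℝ, ∀ (i : ι) (s : ℂ), Z i s = 0 → X ≤ q i s.im → s.re ≤ 5 / 2 → s.re < θ + ε

lemma log_lin (a b c : ℝ) (hb : 0 ≤ b) (hc : 0 ≤ c) :
    ∃ x0 : ℝ, 1 ≤ x0 ∧ ∀ x : ℝ, x0 ≤ x → a + b * Real.log (1 + c * x) ≤ x := by
  have h1 := (Real.isLittleO_log_id_atTop.bound (c := 1 / (2 * (b + 1))) (by positivity))
  obtain ⟨T', hT'⟩ := eventually_atTop.1 h1
  refine ⟨max 1 (max T' (2 * (a + b * Real.log (1 + c)))), le_max_left _ _, fun x hx => ?_⟩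
  have hx1 := (le_max_left _ _).trans hx
  have hx2 := ((le_max_left _ _).trans (le_max_right _ _)).trans hx
  have hx3 := ((le_max_right _ _).trans (le_max_right _ _)).trans hx
  have h2 := hT' x hx2
  rw [Real.norm_eq_abs, Real.norm_eq_abs, id, abs_of_nonneg (Real.log_nonneg hx1),
    abs_of_nonneg (by linarith : (0 : ℝ) ≤ x)] at h2
  have h3 : Real.log (1 + c * x) ≤ Real.log (1 + c) + Real.log x := by
    rw [← Real.log_mul (by positivity) (by linarith)]
    apply Real.log_le_log (by positivity)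
    nlinarith
  have h4 : b * Real.log x ≤ x / 2 := by
    calc b * Real.log x ≤ (b + 1) * (1 / (2 * (b + 1)) * x) := by
          apply mul_le_mul (by linarith) h2 (Real.log_nonneg hx1) (by linarith)
      _ = x / 2 := by field_simp
  have h5 := mul_le_mul_of_nonneg_left h3 hb
  rw [mul_add] at h5
  linarith

lemma pos_of {N : ℝ} {μ : Fin m → ℂ} (hN : 1 ≤ N) (y : ℝ) : 0 ≤ Real.log (cnd N μ y) :=
  Real.log_nonneg (cnd_pos hN μ y)

lemma ge_of_log' {N : ℝ} {μ : Fin m → ℂ} (hN : 1 ≤ N) {X y : ℝ} (h : Real.log (max X 1) ≤ Real.log (cnd N μ y)) :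
    X ≤ cnd N μ y := by
  have h1 : 0 < max X 1 := lt_max_of_lt_right one_pos
  have h2 := cnd_pos hN μ y
  exact (le_max_left _ _).trans ((Real.log_le_log_iff h1 (by linarith)).1 h)

/-- heights near a height with large conductor have large conductor -/
lemma near_large (m : ℕ) (C X : ℝ) (hC : 0 ≤ C) : ∃ X' : ℝ, 1 ≤ X' ∧ ∀ (N : ℝ) (μ : Fin m → ℂ) (y y' : ℝ), 1 ≤ N →
    X' ≤ Real.log (cnd N μ y) → |y' - y| ≤ C * Real.log (cnd N μ y) → X ≤ Real.log (cnd N μ y') := by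
  obtain ⟨x0, hx0, H⟩ := log_lin X m C (Nat.cast_nonneg m) hC
  refine ⟨x0, hx0, fun N μ y y' hN h1 h2 => ?_⟩
  have h3 := pos_of (μ := μ) hN y
  have h4 := logm_shift (N := N) hN μ (y := y) (y' := y') (R := C * Real.log (cnd N μ y))
    (by rw [abs_of_nonneg (mul_nonneg hC h3)]; exact h2)
  rw [abs_of_nonneg (mul_nonneg hC h3)] at h4
  have h5 := H _ h1
  linarith

lemma ob_one {N : ℝ} {μ : Fin m → ℂ} {Λ : ℂ → ℂ} (h : Ob N μ Λ) : 1 ≤ N := by
  obtain ⟨α, ε, d, -⟩ := h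
  exact d.one_le

section

variable (hF1 : S_F1) (hm : 1 ≤ m) (hM : 0 ≤ M) (hA : 1 ≤ A) (hOb : ∀ i, Ob (N i) (μ i) (Λ i))
  (hμ : ∀ i j, ‖μ i j‖ ≤ M) (hcs : ∀ i, Li A k (cs i))

include hF1 hm hM hA hOb hμ hcs

theorem fam_iff {θ : ℝ} (hθ : 1 / 2 ≤ θ) :
    UpTo (fun i => It (XX (N i) (Λ i)) (cs i)) (fun i => cnd (N i) (μ i)) θ ↔
      UpTo Λ (fun i => cnd (N i) (μ i)) θ := by
  constructor
  · intro h ε hε
    obtain ⟨C, hC, H⟩ := (hF1 m k M A hm hM hA).1 (ε / 2) (by linarith)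
    obtain ⟨X, hX⟩ := h (ε / 2) (by linarith)
    obtain ⟨X', hX'1, hX'⟩ := near_large m C (Real.log (max X 1)) (by linarith)
    refine ⟨Real.exp (max C X'), fun i s hs hq _ => ?_⟩
    have hN := ob_one (hOb i)
    have hq' : max C X' ≤ Real.log (cnd (N i) (μ i) s.im) := by
      have := Real.log_le_log (Real.exp_pos _) hq
      rwa [Real.log_exp] at this
    by_contra hcon
    push Not at hcon
    obtain ⟨w, hw1, hw2, hw3, hw4⟩ := (H (N i) (μ i) (Λ i) (hOb i) (hμ i) (cs i) (hcs i)).1 s (θ + ε / 2) hs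
      ((le_max_left _ _).trans hq') (by linarith) (by linarith)
    have h5 := hX' (N i) (μ i) s.im w.im hN ((le_max_right _ _).trans hq') hw4
    have h6 := hX i w hw1 (ge_of_log' hN h5) hw3
    linarith
  · intro h ε hε
    obtain ⟨C, hC, H⟩ := (hF1 m k M A hm hM hA).1 (ε / 2) (by linarith)
    obtain ⟨X, hX⟩ := h (ε / 2) (by linarith)
    obtain ⟨X', hX'1, hX'⟩ := near_large m (4 * k) (Real.log (max X 1)) (by positivity)
    refine ⟨Real.exp (max C X'), fun i s hs hq hs2 => ?_⟩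
    have hN := ob_one (hOb i)
    have hq' : max C X' ≤ Real.log (cnd (N i) (μ i) s.im) := by
      have := Real.log_le_log (Real.exp_pos _) hq
      rwa [Real.log_exp] at this
    by_contra hcon
    push Not at hcon
    obtain ⟨w, hw1, hw2, hw4⟩ := (H (N i) (μ i) (Λ i) (hOb i) (hμ i) (cs i) (hcs i)).2 s (θ + ε / 2) hs
      ((le_max_left _ _).trans hq') (by linarith) (by linarith) hs2
    have h7 := (le_max_right _ _).trans hq'
    have h5 := hX' (N i) (μ i) s.im w.im hN h7 (hw4.trans (by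
      have : (1 : ℝ) ≤ Real.log (cnd (N i) (μ i) s.im) := hX'1.trans h7
      have hk : (0 : ℝ) ≤ 4 * k := by positivity
      nlinarith))
    have hw5 : w.re ≤ 1 := by
      obtain ⟨α, e, d, hnz⟩ := hOb i
      by_contra hc
      push Not at hc
      exact hnz w hc hw1
    have h6 := hX i w hw1 (ge_of_log' hN h5) (by linarith)
    linarith

theorem fam_rate {X0 : ℝ} (h : ∀ (i : ι) (s : ℂ), It (XX (N i) (Λ i)) (cs i) s = 0 →
      X0 ≤ cnd (N i) (μ i) s.im → s.re ≤ 5 / 2 → s.re ≤ 1 / 2) :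
    ∃ C : ℝ, ∀ (i : ι) (s : ℂ), Λ i s = 0 → C ≤ Real.log (cnd (N i) (μ i) s.im) →
      |s.re - 1 / 2| ≤ C * (Real.log (Real.log (Real.log (cnd (N i) (μ i) s.im))) /
        Real.log (Real.log (cnd (N i) (μ i) s.im))) := by
  obtain ⟨C, hC, H⟩ := (hF1 m k M A hm hM hA).2
  obtain ⟨X', hX'1, hX'⟩ := near_large m C (Real.log (max X0 1)) (by linarith)
  obtain ⟨x0, hx0, hlog⟩ : ∃ x0 : ℝ, 1 ≤ x0 ∧ ∀ x : ℝ, x0 ≤ x → 0 ≤ Real.log (Real.log x) / Real.log x := by
    refine ⟨Real.exp 1, ?_, fun x hx => ?_⟩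
    · linarith [Real.add_one_le_exp (1 : ℝ)]
    · have h1 : 1 ≤ Real.log x := by
        have := Real.log_le_log (Real.exp_pos _) hx
        rwa [Real.log_exp] at this
      exact div_nonneg (Real.log_nonneg h1) (by linarith)
  refine ⟨max C (max X' x0), fun i s hs hq => ?_⟩
  have hN := ob_one (hOb i)
  have q1 := (le_max_left _ _).trans hq
  have q2 := ((le_max_left _ _).trans (le_max_right _ _)).trans hq
  have q3 := ((le_max_right _ _).trans (le_max_right _ _)).trans hq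
  have h1 := H (N i) (μ i) (Λ i) (hOb i) (hμ i) (cs i) (hcs i) s.im q1 (fun w hw hw1 hw2 => by
    by_contra hcon
    push Not at hcon
    have h5 := hX' (N i) (μ i) s.im w.im hN q2 hcon
    have := h i w hw (ge_of_log' hN h5) hw2
    linarith) s hs rfl
  exact h1.trans (mul_le_mul_of_nonneg_right (le_max_left _ _) (hlog _ q3))

end

theorem fam_lind (hLZ : S_LZ) (hm : 1 ≤ m) (hOb : ∀ i, Ob (N i) (μ i) (Λ i))
    (h : UpTo Λ (fun i => cnd (N i) (μ i)) (1 / 2)) :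
    ∀ ε : ℝ, 0 < ε → ∃ C : ℝ, ∀ (i : ι) (t : ℝ), C ≤ Real.log (cnd (N i) (μ i) t) →
      ‖LL (μ i) (Λ i) (1 / 2 + t * I)‖ ≤ Real.exp (ε * Real.log (cnd (N i) (μ i) t)) := by
  intro ε hε
  obtain ⟨δ, y, C, hδ, hy, hC, H⟩ := hLZ m ε hm hε
  obtain ⟨X, hX⟩ := h δ hδ
  obtain ⟨X', hX'1, hX'⟩ := near_large m y (Real.log (max X 1)) hy.le
  refine ⟨max C X', fun i t hq => ?_⟩
  have hN := ob_one (hOb i)
  have q2 := (le_max_right _ _).trans hq
  refine H (N i) (μ i) (Λ i) (hOb i) t ((le_max_left _ _).trans hq) fun s hs hs1 => ?_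
  by_contra hcon
  push Not at hcon
  have h5 := hX' (N i) (μ i) t s.im hN q2 (hcon.trans (by
    have : (1 : ℝ) ≤ Real.log (cnd (N i) (μ i) t) := hX'1.trans q2
    nlinarith))
  have hw5 : s.re ≤ 1 := by
    obtain ⟨α, e, d, hnz⟩ := hOb i
    by_contra hc
    push Not at hc
    exact hnz s hc hs
  have := hX i s hs (ge_of_log' hN h5) (by linarith)
  linarith

end Pool.Agent.Q260.DS
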