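import Pool.Agent.Q260.DS.All
import Pool.Agent.Q260.DS.Fam
import Pool.Agent.Q251.DS.HD
import Pool.Agent.Q210.DS.SY
import Pool.Agent.Q210.DS.DU
import Pool.Agent.Q210.DS.LZ
import Pool.Agent.Q251.DS.F1

set_option autoImplicit false

/-!
# Project DS: all lemmas on L-functions
-/

namespace Pool.Agent.Q260.DS

theorem hd : S_HD := Q251.DS.HD.t_HD
theorem sy : S_SY := Q210.DS.t_SY hd
theorem du : S_DU := Q210.DS.t_DU
theorem lz : S_LZ := Q210.DS.t_LZ
theorem f1 : S_F1 := Q251.DS.F1.t_F1 sy du di ra dn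

end Pool.Agent.Q260.DS
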