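import Pool.Agent.Q260.DS.Stm

set_option autoImplicit false

/-!
# Project DS (helper260): multiplicities
-/

namespace Pool.Agent.Q260.DS

open Complex Filter Topology Metric Set
open scoped ComplexConjugate

/-- JOB RK (from `S_LB`): multiplicity of a zero on the line, from a zero free region of width `δ`. Proof. Let
`L = l T`, `f1 u = f (u + I T)`; `f1 u = e conj (f1 (-conj u))`, so `f1` has no zeros with `δ < |Re u| ≤ 2`,
`|Im u| ≤ 4`. `S_LB` (`k = 0`, `cs = []`, `θ = δ`, `δ`) at heights `T + v`, `|v| ≤ 1`... (apply `NZ` with window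
`[T-4, T+4]` only at height `T`; for the heights `T + v`, `|v| ≤ 1`, use the hypothesis for the window
`[T - 8, T + 8]`): for `2δ ≤ x ≤ 3`: `|log (‖f1 (x + I v)‖ / (g T exp (L x)))| ≤ 2 EE + C' ` (`g (T+v)` and `g T`,
`l (T+v)` and `L` are comparable: `|l (T+v) - L| ≤ K log 3`, and `g (T+v) / g T` is bounded above and below by `up`, `lo`
at the common point `3 + I (T+v)`). Upper bound near the line: in the rectangle `|Re u| ≤ 2δ`, `|Im u| ≤ 1` apply the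
maximum principle to `f1 u exp (2 L u^2)`: on `|Re u| = 2δ` it is at most `g T exp (2δL + 2 EE + C' + 8 δ^2 L)` (left side by
the functional equation), on `|Im u| = 1` at most `g T exp (3L/2 + C' - 2L(1 - 4δ^2)) ≤ g T` if `δ ≤ 1/10`. Hence
`‖f1 u‖ ≤ g T exp (C (δ L + EE))` for `‖u - 4δ‖ ≤ 8δ`. If `f1` vanishes to order `n` at `0`, then
`‖f1 (4δ)‖ ≤ 2^(-n) max_{‖u - 4δ‖ ≤ 8δ} ‖f1 u‖` (the function `f1(u) (8δ - (conj..)..)/..`, Blaschke factor, or Jensen's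
formula; simplest: `h u = f1 u / u^n` is entire, on the circle `‖u - 4δ‖ = 8δ` one has `‖u‖ ≥ 4δ`... use the Blaschke
factor `(8δ)(u)/( (8δ)^2 - (u - 4δ)(-4δ) )`, of modulus `1` on the circle and `1/2` at the centre). Hence
`n log 2 ≤ C (δ L + EE)`, and `EE C1 L δ ≤ δ L` by `Ok`. -/
def S_RK : Prop := ∀ (K A : ℝ), 1 ≤ K → 1 ≤ A → ∃ C : ℝ, 1 ≤ C ∧
  ∀ (y0 : ℝ) (f : ℂ → ℂ) (l g : ℝ → ℝ), Sys K A y0 f l g →
  (∃ e : ℂ, ‖e‖ = 1 ∧ ∀ z : ℂ, f z = e * conj (f (-conj z))) →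
  ∀ T δ : ℝ, C ≤ l T → δ ≤ 1 / 10 → Ok C (l T) δ → NZ f δ (T - 8) (T + 8) →
  ∀ n : ℕ, (∀ j < n, iteratedDeriv j f (I * T) = 0) → (n : ℝ) ≤ C * δ * l T

end Pool.Agent.Q260.DS
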