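import Pool.Agent.Q260.DS.Fam
import Pool.Agent.Q260.DS.Stm4

set_option autoImplicit false

/-!
# Project DS: multiplicities of zeros in families
-/

namespace Pool.Agent.Q260.DS

open Complex Filter Topology Metric Set
open Pool.Agent.W169.HF H353.E H353.F Q240.GS
open scoped ComplexConjugate

/-- `log t / t` at comparable arguments -/
lemma logdiv {t t' : ℝ} (ht : 4 * Real.exp 1 ≤ t) (h : t / 2 ≤ t') : Real.log t' / t' ≤ 2 * (Real.log t / t) := by
  have he := Real.exp_pos 1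
  have h1 : Real.exp 1 ≤ t / 2 := by linarith
  have h2 : Real.log t' / t' ≤ Real.log (t / 2) / (t / 2) :=
    Real.log_div_self_antitoneOn (by simpa using h1) (by simpa using h1.trans h) h
  refine h2.trans ?_
  have h3 : Real.log (t / 2) ≤ Real.log t := Real.log_le_log (by linarith) (by linarith)
  calc Real.log (t / 2) / (t / 2) ≤ Real.log t / (t / 2) := div_le_div_of_nonneg_right h3 (by linarith)
    _ = 2 * (Real.log t / t) := by
      have : t ≠ 0 := by linarith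
      field_simp

/-- the admissible width -/
lemma ok_rate (C D : ℝ) (hC : 1 ≤ C) : ∃ B L0 : ℝ, D ≤ B ∧ 1 ≤ B ∧ ∀ L : ℝ, L0 ≤ L →
    B * (Real.log (Real.log L) / Real.log L) ≤ 1 / 10 ∧ Ok C L (B * (Real.log (Real.log L) / Real.log L)) := by
  obtain ⟨B, hB⟩ : ∃ B : ℝ, B = max D (10 * C) := ⟨_, rfl⟩
  have hB1 : 10 * C ≤ B := by rw [hB]; exact le_max_right _ _
  have hDB : D ≤ B := by rw [hB]; exact le_max_left _ _
  have hB0 : 0 < B := by linarith
  -- `log t / t → 0`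
  have h1 := (Real.isLittleO_log_id_atTop.bound (c := 1 / (10 * B)) (by positivity))
  obtain ⟨t0, ht0⟩ := eventually_atTop.1 h1
  obtain ⟨t1, ht1⟩ : ∃ t1 : ℝ, t1 = max (max t0 (Real.exp (Real.exp 1))) (Real.exp (C + 1)) := ⟨_, rfl⟩
  have q1 : t0 ≤ t1 := by rw [ht1]; exact (le_max_left _ _).trans (le_max_left _ _)
  have q2 : Real.exp (Real.exp 1) ≤ t1 := by rw [ht1]; exact (le_max_right _ _).trans (le_max_left _ _)
  have q3 : Real.exp (C + 1) ≤ t1 := by rw [ht1]; exact le_max_right _ _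
  refine ⟨B, Real.exp t1, hDB, by linarith, fun L hL => ?_⟩
  obtain ⟨t, ht⟩ : ∃ t : ℝ, t = Real.log L := ⟨_, rfl⟩
  have hLpos : 0 < L := (Real.exp_pos _).trans_le hL
  have ht2 : t1 ≤ t := by
    rw [ht]
    exact (Real.le_log_iff_exp_le hLpos).2 hL
  obtain ⟨s, hs⟩ : ∃ s : ℝ, s = Real.log t := ⟨_, rfl⟩
  have htpos : 0 < t := (Real.exp_pos _).trans_le (q2.trans ht2)
  have hs1 : Real.exp 1 ≤ s := by
    rw [hs]
    exact (Real.le_log_iff_exp_le htpos).2 (q2.trans ht2)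
  have hs2 : C + 1 ≤ s := by
    rw [hs]
    exact (Real.le_log_iff_exp_le htpos).2 (q3.trans ht2)
  have hs0 : 1 ≤ s := by linarith [Real.add_one_le_exp (1 : ℝ)]
  rw [← ht, ← hs]
  have h2 := ht0 t (q1.trans ht2)
  rw [Real.norm_eq_abs, Real.norm_eq_abs, id, abs_of_pos htpos, ← hs, abs_of_nonneg (by linarith)] at h2
  obtain ⟨δ, hδ⟩ : ∃ δ : ℝ, δ = B * (s / t) := ⟨_, rfl⟩
  rw [← hδ]
  have hδ0 : 0 < δ := by rw [hδ]; positivity
  have hδ1 : δ ≤ 1 / 10 := by
    have h3 : s / t ≤ 1 / (10 * B) := by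
      rw [div_le_iff₀ htpos]
      exact h2
    rw [hδ]
    calc B * (s / t) ≤ B * (1 / (10 * B)) := mul_le_mul_of_nonneg_left h3 hB0.le
      _ = 1 / 10 := by field_simp
  refine ⟨hδ1, hδ0, by linarith, ?_⟩
  -- `C / δ^3 ≤ L^(δ/C)`
  have hL2 : L ^ (δ / C) = Real.exp (t * (δ / C)) := by
    rw [Real.rpow_def_of_pos hLpos, ← ht]
  have h4 : t * (δ / C) = B / C * s := by
    rw [hδ]
    field_simp
  have h5 : 10 * s ≤ B / C * s := by
    apply mul_le_mul_of_nonneg_right _ (by linarith)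
    rw [le_div_iff₀ (by linarith)]
    exact hB1
  have h6 : Real.exp (10 * s) ≤ L ^ (δ / C) := by
    rw [hL2, h4]
    exact Real.exp_le_exp.2 h5
  have h7 : 1 / δ ≤ t := by
    rw [div_le_iff₀ hδ0, hδ]
    have : t * (B * (s / t)) = B * s := by field_simp
    rw [this]
    nlinarith
  have h8 : C / δ ^ 3 ≤ C * t ^ 3 := by
    calc C / δ ^ 3 = C * (1 / δ) ^ 3 := by
          rw [one_div, inv_pow]; rfl
      _ ≤ C * t ^ 3 := by
          apply mul_le_mul_of_nonneg_left _ (by linarith)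
          exact pow_le_pow_left₀ (by positivity) h7 3
  have h9 : t = Real.exp s := by rw [hs, Real.exp_log htpos]
  refine h8.trans (le_trans ?_ h6)
  have h10 : C ≤ Real.exp s := by linarith [Real.add_one_le_exp s]
  calc C * t ^ 3 ≤ Real.exp s * Real.exp s ^ 3 := by
        rw [h9]
        exact mul_le_mul_of_nonneg_right h10 (by positivity)
    _ = Real.exp (4 * s) := by
        rw [← Real.exp_nat_mul, ← Real.exp_add]
        congr 1
        push_cast
        ring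
    _ ≤ Real.exp (10 * s) := Real.exp_le_exp.2 (by linarith)

/-- `loglog L / log L` -/
noncomputable def R (L : ℝ) : ℝ := Real.log (Real.log L) / Real.log L

theorem mult_sys (hRK : S_RK) (K A D : ℝ) (hK : 1 ≤ K) (hA : 1 ≤ A) : ∃ C : ℝ, 1 ≤ C ∧
    ∀ (y0 : ℝ) (f : ℂ → ℂ) (l g : ℝ → ℝ), Sys K A y0 f l g →
    (∃ e : ℂ, ‖e‖ = 1 ∧ ∀ z : ℂ, f z = e * conj (f (-conj z))) →
    ∀ T : ℝ, C ≤ l T → (∀ z : ℂ, f z = 0 → |z.im - T| ≤ 8 → z.re ≤ D * R (l T)) →
    ∀ n : ℕ, (∀ j < n, iteratedDeriv j f (I * T) = 0) → (n : ℝ) ≤ C * (R (l T) * l T) := by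
  obtain ⟨C1, hC1, H⟩ := hRK K A hK hA
  obtain ⟨B, L0, hDB, hB1, HB⟩ := ok_rate C1 D hC1
  refine ⟨max (C1 * B) (max L0 C1), ?_, fun y0 f l g S hfe T hT hz n hn => ?_⟩
  · exact hC1.trans ((le_max_right _ _).trans (le_max_right _ _))
  have q2 : L0 ≤ l T := ((le_max_left _ _).trans (le_max_right _ _)).trans hT
  have q3 : C1 ≤ l T := ((le_max_right _ _).trans (le_max_right _ _)).trans hT
  obtain ⟨h1, h2⟩ := HB (l T) q2
  have hR : 0 < R (l T) := by
    have := h2.1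
    exact (mul_pos_iff_of_pos_left (by linarith)).1 this
  have h3 := H y0 f l g S hfe T _ q3 h1 h2 (fun z z1 _ z3 z4 h0 => by
    have h4 := hz z h0 (by rw [abs_le]; constructor <;> linarith)
    have h5 : D * R (l T) ≤ B * R (l T) := mul_le_mul_of_nonneg_right hDB hR.le
    have z1' : B * R (l T) < z.re := z1
    linarith) n hn
  have h4 : C1 * (B * (Real.log (Real.log (l T)) / Real.log (l T))) * l T = (C1 * B) * (R (l T) * l T) := by
    unfold R
    ring
  rw [h4] at h3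
  refine h3.trans (mul_le_mul_of_nonneg_right (le_max_left _ _) (mul_nonneg hR.le (by linarith)))

/-- comparison of the rates -/
lemma R_le {x y : ℝ} (hx : Real.exp (4 * Real.exp 1) ≤ x) (h : x ≤ y ^ 2) : R y ≤ 2 * R x := by
  have hx0 : 0 < x := (Real.exp_pos _).trans_le hx
  have h1 : 4 * Real.exp 1 ≤ Real.log x := (Real.le_log_iff_exp_le hx0).2 hx
  refine logdiv h1 ?_
  have h2 := Real.log_le_log hx0 h
  rw [Real.log_pow] at h2
  push_cast at h2
  linarith

lemma R_nonneg {x : ℝ} (hx : Real.exp (Real.exp 1) ≤ x) : 0 ≤ R x := by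
  have hx0 : 0 < x := (Real.exp_pos _).trans_le hx
  have h1 : Real.exp 1 ≤ Real.log x := (Real.le_log_iff_exp_le hx0).2 hx
  have h2 : 1 ≤ Real.log (Real.log x) := by
    have := Real.log_le_log (Real.exp_pos _) h1
    rwa [Real.log_exp] at this
  exact div_nonneg (by linarith) (by linarith [Real.exp_pos 1])

/-- the bound for the multiplicities from the rate -/
theorem fam_mult {ι : Type*} {m : ℕ} {K A Y D : ℝ} {N : ι → ℝ} {μ : ι → Fin m → ℂ} {X : ι → ℂ → ℂ} {g : ι → ℝ → ℝ}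
    (hRK : S_RK) (hK : 1 ≤ K) (hA : 1 ≤ A)
    (hN : ∀ i, 1 ≤ N i) (hμ : ∀ i j, (μ i j).re ≤ 1 / 2)
    (hS : ∀ i, Sys K A Y (fun z => X i (1 / 2 + z)) (el (N i) (μ i)) (g i))
    (hfe : ∀ i, ∃ e : ℂ, ‖e‖ = 1 ∧ ∀ s : ℂ, X i s = e * conj (X i (1 - conj s)))
    (h : ∀ (i : ι) (s : ℂ), X i s = 0 → D ≤ Real.log (cnd (N i) (μ i) s.im) →
      |s.re - 1 / 2| ≤ D * R (Real.log (cnd (N i) (μ i) s.im))) :
    ∃ C : ℝ, ∀ (i : ι) (T : ℝ), C ≤ Real.log (cnd (N i) (μ i) T) → ∀ n : ℕ,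
      (∀ j < n, iteratedDeriv j (X i) (1 / 2 + T * I) = 0) →
      (n : ℝ) ≤ C * (R (Real.log (cnd (N i) (μ i) T)) * Real.log (cnd (N i) (μ i) T)) := by
  obtain ⟨C1, hC1, H⟩ := mult_sys hRK K A (2 * |D|) hK hA
  have hm0 : (0 : ℝ) ≤ m := Nat.cast_nonneg m
  obtain ⟨E, hE⟩ : ∃ E : ℝ, E = Real.exp (4 * Real.exp 1) := ⟨_, rfl⟩
  have hE2 : Real.exp (Real.exp 1) ≤ E := by
    rw [hE]
    exact Real.exp_le_exp.2 (by linarith [Real.exp_pos 1])
  have hE1 : 1 ≤ E := by
    rw [hE]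
    exact Real.one_le_exp (by positivity)
  refine ⟨max (2 * C1) (8 * (C1 + |D| + E + 20 * m + 4 + m * Real.log 9)), fun i T hT n hn => ?_⟩
  have hT2 : 8 * (C1 + |D| + E + 20 * m + 4 + m * Real.log 9) ≤ Real.log (cnd (N i) (μ i) T) :=
    (le_max_right _ _).trans hT
  obtain ⟨W, hW⟩ : ∃ W : ℝ, W = Real.log (cnd (N i) (μ i) T) := ⟨_, rfl⟩
  rw [← hW] at hT2 ⊢
  obtain ⟨b1, b2⟩ := el_bd (hN i) (hμ i) T
  rw [← hW] at b1 b2
  have hD0 := abs_nonneg D
  have hl9 : 0 ≤ (m : ℝ) * Real.log 9 := mul_nonneg hm0 (Real.log_nonneg (by norm_num))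
  have hl : W / 4 ≤ el (N i) (μ i) T := by linarith
  have hl2 : el (N i) (μ i) T ≤ W := by linarith
  have hlE : E ≤ el (N i) (μ i) T := by linarith
  have hR0 := R_nonneg (hE2.trans hlE)
  have key := H Y (fun z => X i (1 / 2 + z)) (el (N i) (μ i)) (g i) (hS i) (by
    obtain ⟨e, he, h1⟩ := hfe i
    refine ⟨e, he, fun z => ?_⟩
    rw [h1 (1 / 2 + z)]
    congr 3
    rw [map_add, map_div₀, map_one, map_ofNat]
    ring) T (by linarith) (fun z hz hzT => by
    have him : (1 / 2 + z : ℂ).im = z.im := by simp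
    have hre : (1 / 2 + z : ℂ).re = 1 / 2 + z.re := by simp
    have hsh := logm_shift (hN i) (μ i) (y := T) (y' := z.im) (R := 8) (by
      rw [abs_of_pos (by norm_num : (0 : ℝ) < 8)]; exact hzT)
    rw [abs_of_pos (by norm_num : (0 : ℝ) < 8), ← hW, show (1 + 8 : ℝ) = 9 by norm_num] at hsh
    have hq : el (N i) (μ i) T / 2 ≤ Real.log (cnd (N i) (μ i) z.im) := by linarith
    have hq2 : D ≤ Real.log (cnd (N i) (μ i) z.im) := by linarith [le_abs_self D]
    have h1 := h i (1 / 2 + z) hz (by rw [him]; exact hq2)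
    rw [him, hre, add_sub_cancel_left] at h1
    have hq3 : 4 ≤ Real.log (cnd (N i) (μ i) z.im) := by linarith
    have hq4 : E ≤ Real.log (cnd (N i) (μ i) z.im) := by linarith
    have h2 : R (Real.log (cnd (N i) (μ i) z.im)) ≤ 2 * R (el (N i) (μ i) T) := by
      refine R_le (by rw [← hE]; exact hlE) ?_
      nlinarith
    have h3 := R_nonneg (hE2.trans hq4)
    calc z.re ≤ |z.re| := le_abs_self _
      _ ≤ D * R (Real.log (cnd (N i) (μ i) z.im)) := h1
      _ ≤ |D| * R (Real.log (cnd (N i) (μ i) z.im)) := mul_le_mul_of_nonneg_right (le_abs_self D) h3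
      _ ≤ |D| * (2 * R (el (N i) (μ i) T)) := mul_le_mul_of_nonneg_left h2 hD0
      _ = 2 * |D| * R (el (N i) (μ i) T) := by ring) n (fun j hj => by
    have h1 := hn j hj
    have h2 := congrFun (iteratedDeriv_comp_const_add (n := j) (f := X i) (s := (1 / 2 : ℂ))) (I * T)
    rw [h2, show (1 / 2 + I * (T : ℂ) : ℂ) = 1 / 2 + T * I by ring]
    exact h1)
  have h5 : R (el (N i) (μ i) T) ≤ 2 * R W := by
    have hW1 : E ≤ W := by linarith
    refine R_le (by rw [← hE]; exact hW1) ?_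
    nlinarith
  have hRW : 0 ≤ R W := R_nonneg (hE2.trans (by linarith))
  calc (n : ℝ) ≤ C1 * (R (el (N i) (μ i) T) * el (N i) (μ i) T) := key
    _ ≤ C1 * ((2 * R W) * W) := by
        apply mul_le_mul_of_nonneg_left _ (by linarith)
        exact mul_le_mul h5 hl2 (by linarith) (by positivity)
    _ = (2 * C1) * (R W * W) := by ring
    _ ≤ _ := mul_le_mul_of_nonneg_right (le_max_left _ _) (mul_nonneg hRW (by linarith))

/-- the operators commute with translations and constants -/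
lemma It_affine (f : ℂ → ℂ) (c a : ℂ) (cs : List ℝ) : It (fun s => c * f (s + a)) cs = fun s => c * It f cs (s + a) := by
  induction cs with
  | nil => rfl
  | cons x cs ih =>
    funext s
    show deriv (It (fun s => c * f (s + a)) cs) s - (x : ℂ) * It (fun s => c * f (s + a)) cs s =
      c * (deriv (It f cs) (s + a) - (x : ℂ) * It f cs (s + a))
    rw [ih]
    have h1 : deriv (fun s => c * It f cs (s + a)) s = c * deriv (It f cs) (s + a) := by
      rw [deriv_const_mul_field, deriv_comp_add_const]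
    rw [h1]
    ring

/-- comparison of the rates, for comparable conductors -/
lemma R_comp {x y D : ℝ} (hD : 0 ≤ D) (hx : Real.exp (4 * Real.exp 1) + 2 * D + 2 ≤ x) (h : x ≤ y + D) (hy : y ≤ x + D) :
    R y ≤ 2 * R x ∧ 0 ≤ R x ∧ R y * y ≤ 4 * (R x * x) := by
  have hE1 : 0 < Real.exp (4 * Real.exp 1) := Real.exp_pos _
  have hy1 : D + 2 ≤ y := by linarith
  have h1 : R y ≤ 2 * R x := R_le (by linarith) (by nlinarith [mul_nonneg hD (by linarith : (0 : ℝ) ≤ y - 1)])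
  have h2 : 0 ≤ R x := R_nonneg (le_trans (Real.exp_le_exp.2 (by linarith [Real.exp_pos 1])) (by linarith :
    Real.exp (4 * Real.exp 1) ≤ x))
  refine ⟨h1, h2, ?_⟩
  calc R y * y ≤ (2 * R x) * (2 * x) := by
        apply mul_le_mul h1 (by linarith) (by linarith) (by linarith)
    _ = 4 * (R x * x) := by ring

end Pool.Agent.Q260.DS
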