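import Pool.Agent.Q260.DS.All2
import Pool.Agent.Q260.DS.Fam2
import Pool.Agent.Q182.DS.RK
import Pool.Agent.Q240.GS.Fin2

set_option autoImplicit false

/-!
# Project DS: multiplicities
-/

namespace Pool.Agent.Q260.DS

open Complex
open Pool.Agent.W169.HF H353.E H353.F Q240.GS
open scoped ComplexConjugate

theorem rk : S_RK := Pool.Agent.Q182.DS.t_RK lb

/-- the functional equation of `XX` -/
lemma fe_of_datum {m : ℕ} {N : ℝ} {μ : Fin m → ℂ} {α : Fin m → ℕ → ℂ} {ε : ℂ} {Λ : ℂ → ℂ}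
    (d : DatumT (1 / 2) N μ α ε Λ) :
    ∃ e : ℂ, ‖e‖ = 1 ∧ ∀ s : ℂ, XX N Λ s = e * conj (XX N Λ (1 - conj s)) := by
  refine ⟨ε, d.norm_eq, fun s => ?_⟩
  have hN : 0 < N := by linarith [d.one_le]
  have hN0 : (N : ℂ) ≠ 0 := by exact_mod_cast hN.ne'
  unfold XX
  rw [d.fe s, map_mul]
  have h1 : conj ((N : ℂ) ^ ((1 - conj s) / 2)) = (N : ℂ) ^ ((1 - s) / 2) := by
    have h2 : (Complex.arg (N : ℂ)) ≠ Real.pi := by
      rw [Complex.arg_ofReal_of_nonneg hN.le]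
      exact Real.pi_pos.ne
    have h3 := Complex.cpow_conj (N : ℂ) ((1 - s) / 2) h2
    rw [Complex.conj_ofReal] at h3
    have h4 : (conj ((1 - s) / 2) : ℂ) = (1 - conj s) / 2 := by
      rw [map_div₀, map_sub, map_one, map_ofNat]
    rw [h4] at h3
    rw [h3, Complex.conj_conj]
  rw [h1]
  have h5 : (N : ℂ) ^ (s / 2) * (N : ℂ) ^ (1 / 2 - s) = (N : ℂ) ^ ((1 - s) / 2) := by
    rw [← cpow_add _ _ hN0]
    congr 1
    ring
  calc (N : ℂ) ^ (s / 2) * (ε * (N : ℂ) ^ (1 / 2 - s) * conj (Λ (1 - conj s))) =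
      ε * ((N : ℂ) ^ (s / 2) * (N : ℂ) ^ (1 / 2 - s)) * conj (Λ (1 - conj s)) := by ring
    _ = _ := by rw [h5]; ring

end Pool.Agent.Q260.DS
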