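import Pool.Agent.Q260.DS.All2
import Pool.Agent.Q149.BD.FB
import Pool.Agent.Q26.BD.FU
import Pool.Agent.Q65.BD.VU
import Pool.Agent.Q277.BD.UI
import Pool.Agent.Q65.BD.CU
import Pool.Agent.Q241.BD.UF
import Pool.Agent.Q211.BD.FQ
import Pool.Agent.Q211.BD.F2
import Pool.Agent.Q26.BD.GL

set_option autoImplicit false

/-!
# Project BD: all lemmas on `Sys` and on L-functions
-/

namespace Pool.Agent.Q260.DS

theorem fb : S_FB := Q149.BD.t_FB
theorem fu : S_FU := Q26.BD.t_FU fb rt gr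
theorem vu : S_VU := Q65.BD.t_VU gr
theorem ui : S_UI := Q277.BD.t_UI vu
theorem cu : S_CU := Q65.BD.t_CU gr rt
theorem uf : S_UF := Q241.BD.t_UF rt gr
theorem fq : S_FQ := Q211.BD.t_FQ fu ui cu uf
theorem f2 : S_F2 := Q211.BD.F2.t_F2 sy du fq
theorem gl : S_GL := Q26.BD.t_GL

end Pool.Agent.Q260.DS
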