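import Pool.Agent.Q260.DJ.Stm

set_option autoImplicit false

/-!
# Project DS (helper260): one derivative decides, uniformly in families of L-functions

This is the uniform (conductor aspect) version of project DJ (`Pool/Agent/Q260/DJ/Stm.lean`); the proofs are
the same, only simpler in some places (no `b = true`) and with uniform constants.  Everything is stated for a
`Sys`, an entire function with a size function `g`, a slope function `l` (half the logarithm of the analytic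
conductor at height `y`) and decay of `g` upwards.  All constants must depend only on the data quantified before
`∃ C`.  Many proofs can be adapted from the (landed) proofs of the jobs DJ with the same name; see
`ideamkt` (jobs `DJ-..`, notes) for the modules.
-/

namespace Pool.Agent.Q260.DS

open Complex Filter Topology Metric Set

/-- A function `f` with size `g y * exp (l y * Re u)` at `u + I y`. -/
structure Sys (K A y0 : ℝ) (f : ℂ → ℂ) (l g : ℝ → ℝ) : Prop where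
  diff : Differentiable ℂ f
  pos : ∀ y : ℝ, 0 < g y
  up : ∀ (y : ℝ) (u : ℂ),
    ‖f (u + I * y)‖ ≤ g y * Real.exp (l y * max |u.re| (3 / 2) + K * (1 + ‖u‖ ^ 2))
  lo : ∀ (y : ℝ) (u : ℂ), 3 / 2 ≤ u.re →
    g y * Real.exp (l y * u.re - K * (1 + ‖u‖ ^ 2)) ≤ ‖f (u + I * y)‖
  shift : ∀ y v : ℝ, |l (y + v) - l y| ≤ K * Real.log (2 + |v|)
  dec : ∀ y v : ℝ, y0 ≤ y → 0 ≤ v → g (y + v) ≤ A * Real.exp (-v / A) * g y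

/-- `(D - c_1) ... (D - c_k) f`. -/
noncomputable def It (f : ℂ → ℂ) : List ℝ → ℂ → ℂ
  | [] => f
  | c :: cs => fun z => deriv (It f cs) z - (c : ℂ) * It f cs z

/-- `cs` has length `k` and entries bounded by `A`. -/
def Li (A : ℝ) (k : ℕ) (cs : List ℝ) : Prop := cs.length = k ∧ ∀ c ∈ cs, |c| ≤ A

/-- `G` has no zeros in the box `θ < Re z ≤ 2`, `a ≤ Im z ≤ b`. -/
def NZ (G : ℂ → ℂ) (θ a b : ℝ) : Prop :=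
  ∀ z : ℂ, θ < z.re → z.re ≤ 2 → a ≤ z.im → z.im ≤ b → G z ≠ 0

/-- `δ` is not too small in terms of `L`: a constant, or `C' loglog L / log L`. -/
def Ok (C L δ : ℝ) : Prop := 0 < δ ∧ δ ≤ 1 / 2 ∧ C / δ ^ 3 ≤ L ^ (δ / C)

/-- The error term. -/
noncomputable def EE (C L δ : ℝ) : ℝ := C / δ ^ 2 * L ^ (1 - δ / C)

/-- The normal size. -/
noncomputable def Nm (l g : ℝ → ℝ) (k : ℕ) (y x : ℝ) : ℝ := g y * Real.exp (l y * x) * l y ^ k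

/-- JOB RT. Proof. Induction on `k`, for all `a`, `B`. `k = 0`: on `ball (x + I y) r`, `r = min 1 (a - 3/2)`,
`h w = f w * exp (- l y * w)` is nonzero and `|log (‖h w‖ / g y)| ≤ K (1 + (B+2)^2) =: K'` by `up`, `lo` with
`u = w - I y` (`max |Re u| (3/2) = Re u`); write `h = h(c) exp φ` (`H31R2.DH.exists_log` in
`Pool/Agent/H31R2/DH/Back.lean`), `Re φ ≤ 2 K'`, Borel-Caratheodory and Cauchy: `‖φ' c‖ ≤ 100 K'/r`, and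
`logDeriv f c = l y + φ' c`. Step: let `G = It f cs`, `q = logDeriv G`. On the larger strip `a' = (a + 3/2)/2`,
`B' = B + 1`: `‖q w - l (Im w)‖ ≤ C`, `|l (Im w) - l y| ≤ K log 3` (`shift`) on the disc of radius
`r = min 1 (a - a')` around `x + I y`; Cauchy gives `‖q'‖ ≤ C''` at the centre (apply it to `q - l y`); `G1 = G (q - c)`,
`‖q - c - l y‖ ≤ C + A ≤ l y / 2` for `l y` large, so `G1 ≠ 0`, `logDeriv G1 = q + q' / (q - c)`, and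
`l y / 2 ≤ ‖G1‖ / ‖G‖ ≤ 2 l y`. -/
def S_RT : Prop := ∀ (K A a B : ℝ) (k : ℕ), 1 ≤ K → 1 ≤ A → 3 / 2 < a → ∃ C : ℝ, 1 ≤ C ∧
  ∀ (y0 : ℝ) (f : ℂ → ℂ) (l g : ℝ → ℝ), Sys K A y0 f l g → ∀ cs : List ℝ, Li A k cs →
  ∀ x y : ℝ, C ≤ l y → a ≤ x → x ≤ B → It f cs (x + I * y) ≠ 0 ∧
    ‖logDeriv (It f cs) (x + I * y) - (l y : ℂ)‖ ≤ C ∧
    Nm l g k y x / C ≤ ‖It f cs (x + I * y)‖ ∧ ‖It f cs (x + I * y)‖ ≤ C * Nm l g k y x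

/-- JOB GR. Proof. Induction on `k`, for all `R`, with Cauchy's estimate on discs of radius `1`
(`‖G'‖ ≤ max ‖G‖`); `k = 0`: `l y * max |Re u| (3/2) + K (1 + R^2) ≤ (R + 2 + K (1 + R^2)) l y`. Also `It f cs` is
entire (`Differentiable ℂ`). -/
def S_GR : Prop := ∀ (K A R : ℝ) (k : ℕ), 1 ≤ K → 1 ≤ A → 0 ≤ R → ∃ C : ℝ, 1 ≤ C ∧
  ∀ (y0 : ℝ) (f : ℂ → ℂ) (l g : ℝ → ℝ), Sys K A y0 f l g → ∀ cs : List ℝ, Li A k cs →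
  Differentiable ℂ (It f cs) ∧ ∀ y : ℝ, 1 ≤ l y → ∀ u : ℂ, ‖u‖ ≤ R →
    ‖It f cs (u + I * y)‖ ≤ g y * Real.exp (C * l y)

/-- JOB LB (from `DJ.S_TC`, `S_RT`, `S_GR`). Proof. Apply `DJ.S_TC` to `w ↦ It f cs w * exp (- l y * w)`, centre
`c = 3 + I y`, `ρ = 3 - θ`, `M = C' * l y`: no zeros in `ball c ρ` by `NZ` (for `Re w ≤ 2`) and `S_RT` with `a = 7/4`,
`B = 6` at height `Im w` (for `Re w > 7/4`; `l (Im w) ≥ l y / 2` by `shift`); the upper bound by `S_GR` with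
`R = 7` and the lower bound for `‖g c‖` by `S_RT`; on `closedBall c 1` (`Re w ≥ 2`) the logarithmic derivative
`logDeriv (It f cs) w - l y` is bounded by `S_RT` (`|l (Im w) - l y| ≤ K log 3`). The size at `c` is `Nm l g k y 3`
up to a constant (`S_RT`). -/
def S_LB : Prop := ∀ (K A : ℝ) (k : ℕ), 1 ≤ K → 1 ≤ A → ∃ C : ℝ, 1 ≤ C ∧
  ∀ (y0 : ℝ) (f : ℂ → ℂ) (l g : ℝ → ℝ), Sys K A y0 f l g → ∀ cs : List ℝ, Li A k cs →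
  ∀ y θ δ : ℝ, C ≤ l y → 0 ≤ θ → θ ≤ 1 → 0 < δ → δ ≤ 1 / 2 → NZ (It f cs) θ (y - 4) (y + 4) →
  ∀ x : ℝ, θ + δ ≤ x → x ≤ 3 → It f cs (x + I * y) ≠ 0 ∧
    |Real.log (‖It f cs (x + I * y)‖ / Nm l g k y x)| ≤ EE C (l y) δ ∧
    ‖logDeriv (It f cs) (x + I * y) - (l y : ℂ)‖ ≤ EE C (l y) δ

/-- JOB VI (from `S_GR`, `S_LB`): vertical integration. Proof. `F = It f cs`, `G = It f (c :: cs) = F' - c F`,
`z = x + I T`, `x = θ + δ`, `L = l T`, `V = K1 L` with `K1 = C - 5` large. `d/dv (exp (-I c v) F (z + I v)) =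
I exp (-I c v) G (z + I v)`, and `‖exp (-I c v)‖ = 1` (`c` real). For `0 ≤ v ≤ V`: `S_LB` for `G` (length `k + 1`) at
height `T + v`: `‖G (z + I v)‖ ≤ exp (EE C1 (l (T+v)) δ) Nm l g (k+1) (T+v) x`; `l (T+v) ≤ L + K log (2+v) ≤ 2 L`, so
`EE C1 (l (T+v)) δ ≤ 2 EE C1 L δ`, `exp (l (T+v) x) ≤ exp (L x) (2+v)^(2K)`, `l (T+v)^(k+1) ≤ 2^(k+1) L^(k+1)`,
`g (T+v) ≤ A exp (-v/A) g T`. Hence `‖G (z + I v)‖ ≤ C2 exp (2 EE) exp (-v/(2A)) Nm l g (k+1) T x`, and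
`‖exp (-I c V) F (z + I V) - F z‖ ≤ 2 A C2 exp (2 EE) Nm` (mean value inequality
`image_norm_le_of_norm_deriv_right_le_deriv_boundary`, no integral). At the top `S_GR` (for `F`, `R = 2`, height
`T + V`) and `dec`: `‖F (z + I V)‖ ≤ A exp (-V/A) g T exp (2 C3 L) ≤ g T ≤ Nm l g (k+1) T x` for `K1 ≥ 3 A C3`.
Finally `Nm l g (k+1) T x ≤ exp (EE) ‖G z‖` (`S_LB` at `T`). -/
def S_VI : Prop := ∀ (K A : ℝ) (k : ℕ), 1 ≤ K → 1 ≤ A → ∃ C : ℝ, 1 ≤ C ∧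
  ∀ (y0 : ℝ) (f : ℂ → ℂ) (l g : ℝ → ℝ), Sys K A y0 f l g → ∀ (c : ℝ) (cs : List ℝ), |c| ≤ A → Li A k cs →
  ∀ T θ δ : ℝ, y0 ≤ T → C ≤ l T → 0 ≤ θ → θ ≤ 1 → 0 < δ → δ ≤ 1 / 2 →
  NZ (It f (c :: cs)) θ (T - 4) (T + C * l T) →
  ‖It f cs (((θ + δ : ℝ) : ℂ) + I * T)‖ ≤
    C * Real.exp (3 * EE C (l T) δ) * ‖It f (c :: cs) (((θ + δ : ℝ) : ℂ) + I * T)‖

/-- JOB BK (from `DJ.S_OD`, `S_LB`, `S_VI`): one step backwards. Proof. `F = It f cs`, `G = It f (c :: cs)`,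
`u x = F z / G z`, `z = x + I T`, satisfies `u' = 1 - (q - c) u`, `q = logDeriv G`, `‖q - l T‖ ≤ EE C1 (l T) δ`
(`S_LB` for `G`), `‖u (θ + δ)‖ ≤ C exp (3 EE)` (`S_VI`). `DJ.S_OD` with `L = l T`: for `x ≥ θ + 3 δ`:
`‖u - 1/L‖ ≤ exp (-L δ)(U + 1/L) + 1/(4L) < 1/L`, so `u ≠ 0`. The inequalities between the constants are as in
`DJ.S_BK`. -/
def S_BK : Prop := ∀ (K A : ℝ) (k : ℕ), 1 ≤ K → 1 ≤ A → ∃ C : ℝ, 1 ≤ C ∧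
  ∀ (y0 : ℝ) (f : ℂ → ℂ) (l g : ℝ → ℝ), Sys K A y0 f l g → ∀ (c : ℝ) (cs : List ℝ), |c| ≤ A → Li A k cs →
  ∀ T θ δ : ℝ, y0 ≤ T → C ≤ l T → 0 ≤ θ → θ ≤ 1 → Ok C (l T) δ →
  NZ (It f (c :: cs)) θ (T - 4) (T + C * l T) →
  ∀ z : ℂ, z.im = T → θ + 3 * δ ≤ z.re → z.re ≤ 2 → It f cs z ≠ 0

/-- JOB FW (from `S_LB`): one step forwards. Proof. `‖logDeriv F z - l T‖ ≤ EE < l T - A` by `Ok`, so
`G = F (logDeriv F - c) ≠ 0`. -/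
def S_FW : Prop := ∀ (K A : ℝ) (k : ℕ), 1 ≤ K → 1 ≤ A → ∃ C : ℝ, 1 ≤ C ∧
  ∀ (y0 : ℝ) (f : ℂ → ℂ) (l g : ℝ → ℝ), Sys K A y0 f l g → ∀ (c : ℝ) (cs : List ℝ), |c| ≤ A → Li A k cs →
  ∀ T θ δ : ℝ, C ≤ l T → 0 ≤ θ → θ ≤ 1 → Ok C (l T) δ → NZ (It f cs) θ (T - 4) (T + 4) →
  ∀ z : ℂ, z.im = T → θ + δ ≤ z.re → z.re ≤ 2 → It f (c :: cs) z ≠ 0

/-- JOB UP (from `S_BK`). Proof. Induction on `k`. `k = 0`: clear. Step: let `C1` be the constant of `S_BK` for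
`k` and `C2` the constant for `k`; `C = 4 (C1 + C2) + ...`. `S_BK` at every height `T'` in
`[T - 4k - X, T + C2 l T]` (`l T' ≥ l T / 2` by `shift` for `l T` large, `Ok C1 (l T') δ`, `y0 ≤ T'`) gives
`NZ (It f cs) (θ + 3δ) (T - 4k - X) (T + C2 l T)`; apply the case `k` with `θ + 3 δ`. -/
def S_UP : Prop := ∀ (K A X : ℝ) (k : ℕ), 1 ≤ K → 1 ≤ A → 0 ≤ X → ∃ C : ℝ, 1 ≤ C ∧
  ∀ (y0 : ℝ) (f : ℂ → ℂ) (l g : ℝ → ℝ), Sys K A y0 f l g → ∀ cs : List ℝ, Li A k cs →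
  ∀ T θ δ : ℝ, y0 + 4 * k + X ≤ T → C ≤ l T → 0 ≤ θ → θ + C * δ ≤ 1 → Ok C (l T) δ →
  NZ (It f cs) θ (T - 4 * k - X) (T + C * l T) → NZ f (θ + C * δ) (T - X) (T + X)

/-- JOB DN (from `S_FW`). Proof. Induction on `k`, for all `X`, as for `S_UP`. -/
def S_DN : Prop := ∀ (K A X : ℝ) (k : ℕ), 1 ≤ K → 1 ≤ A → 0 ≤ X → ∃ C : ℝ, 1 ≤ C ∧
  ∀ (y0 : ℝ) (f : ℂ → ℂ) (l g : ℝ → ℝ), Sys K A y0 f l g → ∀ cs : List ℝ, Li A k cs →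
  ∀ T θ δ : ℝ, C ≤ l T → 0 ≤ θ → θ + C * δ ≤ 1 → Ok C (l T) δ →
  NZ f θ (T - 4 * k - X) (T + 4 * k + X) → NZ (It f cs) (θ + C * δ) (T - X) (T + X)

/-- JOB DI (from `S_UP`, `S_DN`): the dictionary. Proof. Contrapositive, `X = 0`, `δ = min (1/2) (ε / (2C))`
(`Ok C L δ` holds for `L` large), `θ = σ`. -/
def S_DI : Prop := ∀ (K A ε : ℝ) (k : ℕ), 1 ≤ K → 1 ≤ A → 0 < ε → ∃ C : ℝ, 1 ≤ C ∧
  ∀ (y0 : ℝ) (f : ℂ → ℂ) (l g : ℝ → ℝ), Sys K A y0 f l g → ∀ cs : List ℝ, Li A k cs →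
  (∀ (z : ℂ) (σ : ℝ), f z = 0 → y0 + 4 * k ≤ z.im → C ≤ l z.im → 0 ≤ σ → σ + ε ≤ z.re → z.re ≤ 1 →
    ∃ w : ℂ, It f cs w = 0 ∧ σ < w.re ∧ w.re ≤ 2 ∧ z.im - 4 * k ≤ w.im ∧ w.im ≤ z.im + C * l z.im) ∧
  (∀ (z : ℂ) (σ : ℝ), It f cs z = 0 → C ≤ l z.im → 0 ≤ σ → σ + ε ≤ z.re → z.re ≤ 1 →
    ∃ w : ℂ, f w = 0 ∧ σ < w.re ∧ w.re ≤ 2 ∧ |w.im - z.im| ≤ 4 * k)

/-- JOB RA (from `S_UP`): the rate. Proof. `X = 0`, `θ = 0`, `C1` from `S_UP`, `L = l T`,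
`δ = 10 C1 log (log L) / log L`: `L^(δ/C1) = (log L)^10 ≥ C1/δ^3` for `L` large. `Re z > 3/2`: `Sys.lo`. -/
def S_RA : Prop := ∀ (K A : ℝ) (k : ℕ), 1 ≤ K → 1 ≤ A → ∃ C : ℝ, 1 ≤ C ∧
  ∀ (y0 : ℝ) (f : ℂ → ℂ) (l g : ℝ → ℝ), Sys K A y0 f l g → ∀ cs : List ℝ, Li A k cs →
  ∀ T : ℝ, y0 + 4 * k ≤ T → C ≤ l T → NZ (It f cs) 0 (T - 4 * k) (T + C * l T) →
  ∀ z : ℂ, z.im = T → C * (Real.log (Real.log (l T)) / Real.log (l T)) ≤ z.re → f z ≠ 0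

end Pool.Agent.Q260.DS
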