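import Pool.Agent.Q260.DS.Stm
import Pool.Agent.Q240.GS.Slim

set_option autoImplicit false

/-!
# Project DS (helper260): the L-functions

`XX N Λ s = N^(s/2) Λ(s)` is the symmetric completed L-function, `cnd N μ y = N ∏ (1 + ‖y I - μ j‖)` the
analytic conductor at height `y`, `el N μ y` is half its logarithm up to `O(m)` (`Q240.GS.el_bd`).
-/

namespace Pool.Agent.Q260.DS

open Complex Filter Topology Metric Set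
open Pool.Agent.W169.HF H353.E H353.F Q240.GS
open scoped ComplexConjugate

/-- Cuspidal L-function data of degree `m` (same as `Q240.GS.Ob`). -/
def Ob {m : ℕ} (N : ℝ) (μ : Fin m → ℂ) (Λ : ℂ → ℂ) : Prop :=
  ∃ (α : Fin m → ℕ → ℂ) (ε : ℂ), DatumT (1 / 2) N μ α ε Λ ∧ ∀ s : ℂ, 1 < s.re → Λ s ≠ 0

/-- The size at height `y`. -/
noncomputable def gg {m : ℕ} (N : ℝ) (μ : Fin m → ℂ) (y : ℝ) : ℝ :=
  ‖gaf N μ (3 / 2 + y * I)‖ * Real.exp (-(gaD N μ (3 / 2 + y * I)).re)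

/-- The function in the coordinate `z = s - 1/2`. -/
noncomputable def ff (N : ℝ) (Λ : ℂ → ℂ) (z : ℂ) : ℂ := XX N Λ (1 / 2 + z)

/-- JOB HD: decay of the gamma factor. Proof. `d/dv log ‖gaf N μ (3/2 + i(y+v))‖ = - Im gaD N μ (3/2 + i(y+v))`
(`gaf_der`, `H353R6/E10.lean`; `GP.der`), `|Im gaD| ≤ 6 m` always (`gaf_GP`, `GP.im`), and for
`y ≥ Y1(M)`: `Im gaD = ∑ (1/2) Im ψ((3/2 + i y - μ j)/2) ≥ 1/4` (`Im ψ(z) = arg z + O(1/|z|) → π/2`; see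
`H370R2/Digamma.lean`, `dig_aux` in `H353R6`, and `Pool/Agent/Q144/DJ/HA.lean` where the same is done for `ζ`). So
`‖gaf (3/2 + i(y+v))‖ ≤ exp (6m (Y + Y1) + Y + Y1) exp (-v/4) ‖gaf (3/2 + i y)‖` for `y ≥ -Y`. The factor
`exp (-el)`: `el N μ (y+v) ≥ el N μ y - (m/2) log (1+v) - 12 m` (`el_bd`, `logm_shift`), and
`(1+v)^(m/2) exp (-v/4) ≤ C exp (-v/8)`. -/
def S_HD : Prop := ∀ (m : ℕ) (M Y : ℝ), 1 ≤ m → 0 ≤ M → 0 ≤ Y → ∃ A : ℝ, 1 ≤ A ∧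
  ∀ (N : ℝ) (μ : Fin m → ℂ), 1 ≤ N → (∀ j, (μ j).re ≤ 1 / 2) → (∀ j, ‖μ j‖ ≤ M) →
  ∀ y v : ℝ, -Y ≤ y → 0 ≤ v → gg N μ (y + v) ≤ A * Real.exp (-v / A) * gg N μ y

/-- JOB SY (from `S_HD`). Proof. `up`, `lo`, `diff`: the proof of `Q240.GS.nd_of` in `Q240/GS/Slim.lean` gives
`UD K (3/2) (el N μ y) (gg N μ y) (fun u => XX N Λ (1/2 + y I + u))` (`sharpX`, `ud_of_sharp`). `shift`:
`el_bd` and `logm_shift`. `pos`: `gpos`. -/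
def S_SY : Prop := ∀ (m : ℕ) (M Y : ℝ), 1 ≤ m → 0 ≤ M → 0 ≤ Y → ∃ K A : ℝ, 1 ≤ K ∧ 1 ≤ A ∧
  ∀ (N : ℝ) (μ : Fin m → ℂ) (Λ : ℂ → ℂ), Ob N μ Λ → (∀ j, ‖μ j‖ ≤ M) →
  Sys K A (-Y) (ff N Λ) (el N μ) (gg N μ)

/-- JOB DU: the dual (complex conjugate) L-function. Proof. `α' j p = conj (α j p)`, `ε' = conj ε`;
`Gammaℝ (conj s) = conj (Gammaℝ s)`, `(p : ℂ) ^ (- conj s) = conj ((p : ℂ) ^ (-s))`, products and `tprod` commute with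
`conj` (or: `conj` is continuous; see existing proofs for dual data, `grep -rn dual Pool/Agent/H353*`, `Q270`). -/
def S_DU : Prop := ∀ (m : ℕ) (N : ℝ) (μ : Fin m → ℂ) (Λ : ℂ → ℂ), Ob N μ Λ →
  Ob N (fun j => conj (μ j)) (fun s => conj (Λ (conj s)))

/-- JOB LZ: a zero free box gives the Lindelof bound. Proof. `nd_of` gives the local data `UD K (3/2) (el N μ T) 1`
for `fn N μ Λ T`, `prof_all : S_PROF` (Slim.lean) with `ϑ = δ`, `ρ = δ`, `κ = ε/8`, `δ = ε/8` gives a profile: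
`‖fn N μ Λ T 0‖ ≤ exp (el * (2δ) + κ el)`. The zeros of `fn` are those of `Λ` (`fn_zero`) and `|Re u| ≤ 1/2` for them,
so the hypothesis is that of `S_PROF` with `R = h`. Lower bound for the gamma factor at `1/2 + iT`:
`LL_eq : LL μ Λ s = XX N Λ s * (gaf N μ s)⁻¹`; `‖(gaf N μ (1/2+iT))⁻¹‖ gg N μ T ≤ exp (K')`: by `gaf_add_two` at
`s = 1/2 + iT` if no `s - μ j = 0` (else `LL` is `0` there or use continuity in `T`: the bound is closed), the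
upper bound `fac_le` for the linear factors and the lower bound `gam_loc` for `gaf` at `5/2 + iT`. Alternatively
derive it from `Q240.GS.few_L` (`P = 1`, `S = ∅`, `α = 1/2`; zeros of `LL` on the left: reflected zeros of `Λ` and at
most `5 m` trivial zeros). -/
def S_LZ : Prop := ∀ (m : ℕ) (ε : ℝ), 1 ≤ m → 0 < ε → ∃ δ h C : ℝ, 0 < δ ∧ 0 < h ∧ 1 ≤ C ∧
  ∀ (N : ℝ) (μ : Fin m → ℂ) (Λ : ℂ → ℂ), Ob N μ Λ → ∀ T : ℝ, C ≤ Real.log (cnd N μ T) →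
  (∀ s : ℂ, Λ s = 0 → 1 / 2 + δ < s.re → h < |s.im - T|) →
  ‖LL μ Λ (1 / 2 + T * I)‖ ≤ Real.exp (ε * Real.log (cnd N μ T))

/-- JOB F1 (from `S_SY`, `S_DU`, `S_DI`, `S_RA`, `S_DN`): the theorem for L-functions with archimedean
parameters bounded by `M`, at all real heights, uniformly in the conductor. Proof. For `Im s ≥ 0` apply `S_DI`, `S_RA`
to the `Sys` of `S_SY` with `Y = 4 k` (`It (ff N Λ) cs z = It (XX N Λ) cs (1/2 + z)`), for `Im s ≤ 0` to the dual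
(`S_DU`): `XX N Λ' (conj s) = conj (XX N Λ s)`, so `It (XX N Λ') cs (conj s) = conj (It (XX N Λ) cs s)` (`cs` real),
`‖conj μ‖ = ‖μ‖`, `cnd N (conj μ) (-y) = cnd N μ y`. `XX N Λ s = 0` iff `Λ s = 0` (`XX_zero`), and zeros have
`0 ≤ Re s ≤ 1` (`Ob`; `refl_zero` in `Q240/GS/Fam.lean`, i.e. `DatumT.fe`). `log cnd` and `2 el` differ by `O(m)`.
In (b) the case `3/2 < Re s ≤ 5/2`: `NZ (ff N Λ) (1/2) ..` and `S_DN` with `θ = 1/2`, `Cδ ≤ 1/4`, show that there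
are no zeros. -/
def S_F1 : Prop := ∀ (m k : ℕ) (M A : ℝ), 1 ≤ m → 0 ≤ M → 1 ≤ A →
  (∀ ε : ℝ, 0 < ε → ∃ C : ℝ, 1 ≤ C ∧ ∀ (N : ℝ) (μ : Fin m → ℂ) (Λ : ℂ → ℂ), Ob N μ Λ → (∀ j, ‖μ j‖ ≤ M) →
    ∀ cs : List ℝ, Li A k cs →
    (∀ (s : ℂ) (σ : ℝ), Λ s = 0 → C ≤ Real.log (cnd N μ s.im) → 1 / 2 ≤ σ → σ + ε ≤ s.re →
      ∃ w : ℂ, It (XX N Λ) cs w = 0 ∧ σ < w.re ∧ w.re ≤ 5 / 2 ∧
        |w.im - s.im| ≤ C * Real.log (cnd N μ s.im)) ∧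
    (∀ (s : ℂ) (σ : ℝ), It (XX N Λ) cs s = 0 → C ≤ Real.log (cnd N μ s.im) → 1 / 2 ≤ σ → σ + ε ≤ s.re →
      s.re ≤ 5 / 2 → ∃ w : ℂ, Λ w = 0 ∧ σ < w.re ∧ |w.im - s.im| ≤ 4 * k)) ∧
  (∃ C : ℝ, 1 ≤ C ∧ ∀ (N : ℝ) (μ : Fin m → ℂ) (Λ : ℂ → ℂ), Ob N μ Λ → (∀ j, ‖μ j‖ ≤ M) →
    ∀ cs : List ℝ, Li A k cs → ∀ T : ℝ, C ≤ Real.log (cnd N μ T) →
    (∀ s : ℂ, It (XX N Λ) cs s = 0 → 1 / 2 < s.re → s.re ≤ 5 / 2 →
      C * Real.log (cnd N μ T) < |s.im - T|) →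
    ∀ s : ℂ, Λ s = 0 → s.im = T → |s.re - 1 / 2| ≤
      C * (Real.log (Real.log (Real.log (cnd N μ T))) / Real.log (Real.log (cnd N μ T))))

end Pool.Agent.Q260.DS
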